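import Mathlib

namespace Pool.Agent.Results.MP_9dddc4_co.UkExponent

open Finset

/-- The image of an edge set under a map of vertices. -/
def img {V W : Type*} [DecidableEq W] (f : V → W) (F : Finset (Finset V)) :
    Finset (Finset W) :=
  F.image (fun e => e.image f)

/-- `H` is the edge set of an `r`-graph with vertex set `Fin n`. -/
def IsRGraph {n : ℕ} (r : ℕ) (H : Finset (Finset (Fin n))) : Prop :=
  ∀ e ∈ H, e.card = r

/-- Two edge sets are isomorphic: some map of vertices, injective on the vertices covered by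
the first one, sends the first edge set onto the second one. -/
def Iso {n : ℕ} (F F' : Finset (Finset (Fin n))) : Prop :=
  ∃ f : Fin n → Fin n, Set.InjOn f {v | ∃ e ∈ F, v ∈ e} ∧ img f F = F'

/-- A U-decomposition of the family `H` into `t` (possibly empty) parts. -/
def HasUDecomp {k n : ℕ} (H : Fin k → Finset (Finset (Fin n))) (t : ℕ) : Prop :=
  ∃ P : Fin k → Fin t → Finset (Finset (Fin n)),
    (∀ i, (Finset.univ : Finset (Fin t)).biUnion (P i) = H i) ∧
    (∀ i j j', j ≠ j' → Disjoint (P i j) (P i j')) ∧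
    (∀ j i i', Iso (P i j) (P i' j))

/-- The number `U_k(n,r)`: the least `t` such that every family of `k` `r`-graphs on `n`
vertices with equal numbers of edges has a U-decomposition into at most `t` parts. -/
noncomputable def U (k n r : ℕ) : ℕ :=
  sInf {t : ℕ | ∀ H : Fin k → Finset (Finset (Fin n)), (∀ i, IsRGraph r (H i)) →
    (∀ i i', (H i).card = (H i').card) → HasUDecomp H t}

/-! ### Basic facts -/

theorem img_card_inj {V W : Type*} [DecidableEq W] {f : V → W} (hf : Function.Injective f)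
    (F : Finset (Finset V)) : (img f F).card = F.card := by
  unfold img
  rw [Finset.card_image_of_injective]
  exact Finset.image_injective hf

theorem img_perm_iso {n : ℕ} (F : Finset (Finset (Fin n))) (σ τ : Equiv.Perm (Fin n)) :
    Iso (img σ F) (img τ F) := by
  refine ⟨fun x => τ (σ.symm x), fun x _ y _ h => ?_, ?_⟩
  · exact σ.symm.injective (τ.injective h)
  · unfold img
    rw [Finset.image_image]
    apply Finset.image_congr
    intro e _
    simp [Finset.image_image, Function.comp_def]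

theorem exists_perm_extend {n : ℕ} (S : Finset (Fin n)) (f : Fin n → Fin n)
    (hf : Set.InjOn f S) : ∃ σ : Equiv.Perm (Fin n), ∀ x ∈ S, σ x = f x := by
  classical
  obtain ⟨g, hg⟩ := Finset.exists_equiv_extend_of_card_eq (α := Fin n) (β := Fin n)
    (t := Finset.univ) (by simp) (s := S) (f := f) (Finset.subset_univ _) hf
  refine ⟨g.trans (Equiv.subtypeUnivEquiv (fun x => Finset.mem_univ x)), fun x hx => ?_⟩
  simpa using hg x hx

theorem Iso.exists_perm {n : ℕ} {F F' : Finset (Finset (Fin n))} (h : Iso F F') :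
    ∃ σ : Equiv.Perm (Fin n), img σ F = F' := by
  classical
  obtain ⟨f, hf, hF⟩ := h
  obtain ⟨σ, hσ⟩ := exists_perm_extend (F.biUnion id) f (by
    intro x hx y hy hxy
    apply hf _ _ hxy
    · simpa using hx
    · simpa using hy)
  refine ⟨σ, ?_⟩
  rw [← hF]
  unfold img
  apply Finset.image_congr
  intro e he
  apply Finset.image_congr
  intro x hx
  apply hσ
  simp only [Finset.mem_biUnion, id]
  exact ⟨e, he, hx⟩

theorem Iso.card_eq {n : ℕ} {F F' : Finset (Finset (Fin n))} (h : Iso F F') :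
    F.card = F'.card := by
  obtain ⟨σ, rfl⟩ := h.exists_perm
  exact (img_card_inj σ.injective F).symm

/-- The family `H` has isomorphic subfamilies with `s` edges. -/
def Common {k n : ℕ} (H : Fin k → Finset (Finset (Fin n))) (s : ℕ) : Prop :=
  ∃ F : Finset (Finset (Fin n)), ∃ σ : Fin k → Equiv.Perm (Fin n),
    F.card = s ∧ ∀ i, img (σ i) F ⊆ H i

theorem common_of_emb {k n : ℕ} (hk : 0 < k) {V : Type*} [Fintype V] [DecidableEq V]
    (E : Finset (Finset V)) (H : Fin k → Finset (Finset (Fin n)))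
    (h : ∀ i, ∃ φ : V → Fin n, Function.Injective φ ∧ img φ E ⊆ H i) :
    Common H E.card := by
  classical
  choose φ hφ hE using h
  have hex : ∀ i, ∃ σ : Equiv.Perm (Fin n), ∀ v, σ (φ ⟨0, hk⟩ v) = φ i v := by
    intro i
    by_cases hV : Nonempty V
    · obtain ⟨σ, hσ⟩ := exists_perm_extend (Finset.univ.image (φ ⟨0, hk⟩))
        (fun x => φ i (Function.invFun (φ ⟨0, hk⟩) x)) (by
          intro x hx y hy hxy
          simp only [Finset.coe_image, Finset.coe_univ, Set.image_univ, Set.mem_range] at hx hy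
          obtain ⟨a, rfl⟩ := hx
          obtain ⟨b, rfl⟩ := hy
          have h1 := hφ i hxy
          rw [Function.leftInverse_invFun (hφ _) a, Function.leftInverse_invFun (hφ _) b] at h1
          rw [h1])
      refine ⟨σ, fun v => ?_⟩
      rw [hσ _ (Finset.mem_image_of_mem _ (Finset.mem_univ v))]
      rw [Function.leftInverse_invFun (hφ _) v]
    · exact ⟨1, fun v => (hV ⟨v⟩).elim⟩
  choose σ hσ using hex
  refine ⟨img (φ ⟨0, hk⟩) E, σ, img_card_inj (hφ _) E, fun i => ?_⟩
  refine subset_trans (Finset.Subset.refl _ |>.trans (le_of_eq ?_)) (hE i)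
  unfold img
  rw [Finset.image_image]
  apply Finset.image_congr
  intro e _
  simp only [Function.comp_def, Finset.image_image]
  apply Finset.image_congr
  intro v _
  exact hσ i v

theorem HasUDecomp.succ {k n : ℕ} {H : Fin k → Finset (Finset (Fin n))} {t : ℕ}
    (h : HasUDecomp H t) : HasUDecomp H (t + 1) := by
  classical
  obtain ⟨P, h1, h2, h3⟩ := h
  refine ⟨fun i => Fin.cons ∅ (P i), fun i => ?_, fun i j j' hj => ?_, fun j i i' => ?_⟩
  · rw [← h1 i]
    ext e
    simp only [Finset.mem_biUnion, Finset.mem_univ, true_and]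
    rw [Fin.exists_fin_succ]
    simp
  · induction j using Fin.cases with
    | zero => simp
    | succ j =>
      induction j' using Fin.cases with
      | zero => simp
      | succ j' =>
        simp only [Fin.cons_succ]
        exact h2 i j j' (fun h => hj (by rw [h]))
  · induction j using Fin.cases with
    | zero => exact ⟨id, by simp [Set.InjOn], by simp [img]⟩
    | succ j =>
      simp only [Fin.cons_succ]
      exact h3 j i i'

theorem HasUDecomp.mono {k n : ℕ} {H : Fin k → Finset (Finset (Fin n))} {s t : ℕ}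
    (hst : s ≤ t) (h : HasUDecomp H s) : HasUDecomp H t := by
  induction t, hst using Nat.le_induction with
  | base => exact h
  | succ t _ ih => exact ih.succ

theorem HasUDecomp.cons {k n : ℕ} {H : Fin k → Finset (Finset (Fin n))} {t : ℕ}
    (F : Finset (Finset (Fin n))) (σ : Fin k → Equiv.Perm (Fin n))
    (hF : ∀ i, img (σ i) F ⊆ H i)
    (h : HasUDecomp (fun i => H i \ img (σ i) F) t) : HasUDecomp H (t + 1) := by
  classical
  obtain ⟨P, h1, h2, h3⟩ := h
  refine ⟨fun i => Fin.cons (img (σ i) F) (P i), fun i => ?_, fun i j j' hj => ?_,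
    fun j i i' => ?_⟩
  · ext e
    simp only [Finset.mem_biUnion, Finset.mem_univ, true_and]
    rw [Fin.exists_fin_succ]
    simp only [Fin.cons_zero, Fin.cons_succ]
    have h4 := h1 i
    simp only at h4
    have h5 : (∃ j, e ∈ P i j) ↔ e ∈ H i \ img (σ i) F := by
      rw [← h4]
      simp
    rw [h5, Finset.mem_sdiff]
    constructor
    · rintro (h | h)
      · exact hF i h
      · exact h.1
    · intro h
      by_cases h6 : e ∈ img (σ i) F
      · exact Or.inl h6
      · exact Or.inr ⟨h, h6⟩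
  · have key : ∀ j, Disjoint (img (σ i) F) (P i j) := by
      intro j
      rw [Finset.disjoint_left]
      intro e he he'
      have h5 : e ∈ H i \ img (σ i) F := by
        have h4 := h1 i
        simp only at h4
        rw [← h4]
        exact Finset.mem_biUnion.2 ⟨j, Finset.mem_univ _, he'⟩
      exact (Finset.mem_sdiff.1 h5).2 he
    induction j using Fin.cases with
    | zero =>
      induction j' using Fin.cases with
      | zero => exact (hj rfl).elim
      | succ j' =>
        simp only [Fin.cons_succ, Fin.cons_zero]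
        exact key j'
    | succ j =>
      induction j' using Fin.cases with
      | zero =>
        simp only [Fin.cons_succ, Fin.cons_zero]
        exact (key j).symm
      | succ j' =>
        simp only [Fin.cons_succ]
        exact h2 i j j' (fun h => hj (by rw [h]))
  · induction j using Fin.cases with
    | zero =>
      simp only [Fin.cons_zero]
      exact img_perm_iso F (σ i) (σ i')
    | succ j =>
      simp only [Fin.cons_succ]
      exact h3 j i i'

theorem Common.le_card {k n : ℕ} {H : Fin k → Finset (Finset (Fin n))} {s : ℕ}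
    (h : Common H s) (i : Fin k) : s ≤ (H i).card := by
  obtain ⟨F, σ, hF, hσ⟩ := h
  have h1 := Finset.card_le_card (hσ i)
  rw [img_card_inj (σ _).injective, hF] at h1
  exact h1

/-- Greedy decomposition with a potential function. -/
theorem greedy {k n r : ℕ} (hk : 0 < k) (Φ : ℕ → ℝ)
    (hc : ∀ e, 1 ≤ e → ∀ H : Fin k → Finset (Finset (Fin n)), (∀ i, IsRGraph r (H i)) →
      (∀ i, (H i).card = e) → ∃ s : ℕ, 1 ≤ s ∧ Common H s ∧ Φ (e - s) + 1 ≤ Φ e) :
    ∀ e, ∀ H : Fin k → Finset (Finset (Fin n)), (∀ i, IsRGraph r (H i)) →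
      (∀ i, (H i).card = e) →
      ∃ t : ℕ, HasUDecomp H t ∧ (t : ℝ) ≤ Φ e - Φ 0 := by
  classical
  intro e
  induction e using Nat.strong_induction_on with
  | _ e ih =>
    intro H hH hcard
    rcases Nat.eq_zero_or_pos e with he | he
    · subst he
      refine ⟨0, ⟨fun _ j => j.elim0, fun i => ?_, fun _ j => j.elim0, fun j => j.elim0⟩, ?_⟩
      · have h0 : H i = ∅ := Finset.card_eq_zero.1 (hcard i)
        rw [h0]
        rfl
      · simp
    · obtain ⟨s, hs1, hcom, hs2⟩ := hc e he H hH hcard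
      have hse : s ≤ e := by
        have h1 := hcom.le_card ⟨0, hk⟩
        rwa [hcard] at h1
      obtain ⟨F, σ, hF, hσ⟩ := hcom
      obtain ⟨t, ht1, ht2⟩ := ih (e - s) (by omega) (fun i => H i \ img (σ i) F)
        (fun i f hf => hH i f (Finset.mem_sdiff.1 hf).1) (fun i => by
          rw [Finset.card_sdiff_of_subset (hσ i), img_card_inj (σ i).injective, hF, hcard])
      refine ⟨t + 1, HasUDecomp.cons F σ hσ ht1, ?_⟩
      push_cast
      linarith

theorem U_le {k n r : ℕ} (hk : 0 < k) (B : ℝ)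
    (h : ∀ e, ∀ H : Fin k → Finset (Finset (Fin n)), (∀ i, IsRGraph r (H i)) →
      (∀ i, (H i).card = e) → ∃ t : ℕ, HasUDecomp H t ∧ (t : ℝ) ≤ B) :
    (U k n r : ℝ) ≤ B := by
  have hB : 0 ≤ B := by
    obtain ⟨t, -, ht⟩ := h 0 (fun _ => ∅) (by simp [IsRGraph]) (by simp)
    exact le_trans (Nat.cast_nonneg t) ht
  have h1 : U k n r ≤ ⌊B⌋₊ := by
    apply Nat.sInf_le
    intro H hH hc
    obtain ⟨t, ht1, ht2⟩ := h (H ⟨0, hk⟩).card H hH (fun i => hc i _)
    exact ht1.mono (Nat.le_floor ht2)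
  exact le_trans (Nat.cast_le.2 h1) (Nat.floor_le hB)

theorem common_one {k n r : ℕ} (hk : 0 < k) (H : Fin k → Finset (Finset (Fin n)))
    (hH : ∀ i, IsRGraph r (H i)) (e : ℕ) (he : 1 ≤ e) (hc : ∀ i, (H i).card = e) :
    Common H 1 := by
  classical
  have h1 : ∀ i, ∃ f, f ∈ H i := fun i =>
    Finset.card_pos.1 (by rw [hc i]; omega)
  choose f hf using h1
  have := common_of_emb hk (V := Fin r) {Finset.univ} H (fun i => by
    have hr : (f i).card = r := hH i _ (hf i)
    refine ⟨(f i).orderEmbOfFin hr, ((f i).orderEmbOfFin hr).injective, ?_⟩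
    unfold img
    rw [Finset.image_singleton, Finset.singleton_subset_iff]
    have : Finset.image (⇑((f i).orderEmbOfFin hr)) Finset.univ = f i := by
      apply Finset.coe_injective
      simp
    rw [this]
    exact hf i)
  simpa using this

theorem hasUDecomp_card {k n r : ℕ} (H : Fin k → Finset (Finset (Fin n)))
    (hH : ∀ i, IsRGraph r (H i)) (e : ℕ) (hc : ∀ i, (H i).card = e) : HasUDecomp H e := by
  classical
  rcases Nat.eq_zero_or_pos k with hk | hk
  · subst hk
    exact ⟨fun i => i.elim0, fun i => i.elim0, fun i => i.elim0, fun _ i => i.elim0⟩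
  obtain ⟨t, ht1, ht2⟩ := greedy (k := k) (n := n) (r := r) hk (fun x => (x : ℝ))
    (fun e he H hH hc => by
      refine ⟨1, le_rfl, common_one hk H hH e he hc, ?_⟩
      rw [Nat.cast_sub he]
      simp) e H hH hc
  refine ht1.mono ?_
  have : (t : ℝ) ≤ (e : ℝ) := by simpa using ht2
  exact_mod_cast this

theorem U_spec (k n r : ℕ) : ∀ H : Fin k → Finset (Finset (Fin n)), (∀ i, IsRGraph r (H i)) →
    (∀ i i', (H i).card = (H i').card) → HasUDecomp H (U k n r) := by
  classical
  have hne : {t : ℕ | ∀ H : Fin k → Finset (Finset (Fin n)), (∀ i, IsRGraph r (H i)) →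
    (∀ i i', (H i).card = (H i').card) → HasUDecomp H t}.Nonempty := by
    refine ⟨n.choose r, fun H hH hc => ?_⟩
    rcases Nat.eq_zero_or_pos k with hk | hk
    · subst hk
      exact ⟨fun i => i.elim0, fun i => i.elim0, fun i => i.elim0, fun _ i => i.elim0⟩
    refine (hasUDecomp_card (r := r) H hH _ (fun i => hc i ⟨0, hk⟩)).mono ?_
    have h1 : H ⟨0, hk⟩ ⊆ Finset.powersetCard r Finset.univ := by
      intro f hf
      rw [Finset.mem_powersetCard]
      exact ⟨Finset.subset_univ _, hH _ _ hf⟩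
    have h2 := Finset.card_le_card h1
    rwa [Finset.card_powersetCard, Finset.card_univ, Fintype.card_fin] at h2
  exact Nat.sInf_mem hne

/-- Lower bound: if a family with `e` edges has no common subfamily with `T` or more edges then
`e ≤ U * T`. -/
theorem le_U_mul {k n r : ℕ} (H : Fin k → Finset (Finset (Fin n)))
    (hH : ∀ i, IsRGraph r (H i)) (e T : ℕ) (hk : 0 < k) (hc : ∀ i, (H i).card = e)
    (hT : ∀ s, Common H s → s ≤ T) : e ≤ U k n r * T := by
  classical
  obtain ⟨P, h1, h2, h3⟩ := U_spec k n r H hH (fun i i' => by rw [hc, hc])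
  have h4 : ∀ j, (P ⟨0, hk⟩ j).card ≤ T := by
    intro j
    apply hT
    choose σ hσ using fun i => (h3 j ⟨0, hk⟩ i).exists_perm
    refine ⟨P ⟨0, hk⟩ j, σ, rfl, fun i => ?_⟩
    rw [hσ i, ← h1 i]
    exact Finset.subset_biUnion_of_mem (P i) (Finset.mem_univ j)
  calc e = (H ⟨0, hk⟩).card := (hc _).symm
    _ = ((Finset.univ : Finset (Fin (U k n r))).biUnion (P ⟨0, hk⟩)).card := by rw [h1]
    _ ≤ ∑ j : Fin (U k n r), (P ⟨0, hk⟩ j).card := Finset.card_biUnion_le
    _ ≤ ∑ _j : Fin (U k n r), T := Finset.sum_le_sum (fun j _ => h4 j)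
    _ = U k n r * T := by simp

theorem exists_perm_image {n : ℕ} (a b : Finset (Fin n)) (h : b.card = a.card) :
    ∃ σ : Equiv.Perm (Fin n), b.image σ = a := by
  classical
  have e : b ≃ a := Finset.equivOfCardEq h
  obtain ⟨σ, hσ⟩ := exists_perm_extend b (fun x => if hx : x ∈ b then (e ⟨x, hx⟩ : Fin n) else x)
    (by
      intro x hx y hy hxy
      have hx' : x ∈ b := hx
      have hy' : y ∈ b := hy
      simp only [hx', hy', dif_pos] at hxy
      have := e.injective (Subtype.ext hxy)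
      simpa using this)
  refine ⟨σ, ?_⟩
  apply Finset.eq_of_subset_of_card_le
  · intro y hy
    obtain ⟨x, hx, rfl⟩ := Finset.mem_image.1 hy
    rw [hσ x hx, dif_pos hx]
    exact (e ⟨x, hx⟩).2
  · rw [Finset.card_image_of_injective _ σ.injective, h]

theorem overlap {n r : ℕ} (A B : Finset (Finset (Fin n))) (hA : IsRGraph r A)
    (hB : IsRGraph r B) :
    ∃ σ : Equiv.Perm (Fin n), A.card * B.card ≤ (A ∩ img σ B).card * n.choose r := by
  classical
  set N := Finset.powersetCard r (Finset.univ : Finset (Fin n)) with hN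
  have hNc : N.card = n.choose r := by rw [hN, Finset.card_powersetCard, Finset.card_fin]
  have hAN : ∀ a ∈ A, a ∈ N := fun a ha => by
    rw [hN, Finset.mem_powersetCard]; exact ⟨Finset.subset_univ _, hA a ha⟩
  have hBN : ∀ a ∈ B, a ∈ N := fun a ha => by
    rw [hN, Finset.mem_powersetCard]; exact ⟨Finset.subset_univ _, hB a ha⟩
  -- the number of permutations sending b to a
  let c : Finset (Fin n) → Finset (Fin n) → ℕ := fun b a =>
    ((Finset.univ : Finset (Equiv.Perm (Fin n))).filter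
      (fun σ : Equiv.Perm (Fin n) => b.image σ = a)).card
  have hc : ∀ b ∈ N, ∀ a ∈ N, ∀ a' ∈ N, c b a = c b a' := by
    intro b hb a ha a' ha'
    obtain ⟨τ, hτ⟩ := exists_perm_image a' a (by
      rw [(Finset.mem_powersetCard.1 ha).2, (Finset.mem_powersetCard.1 ha').2])
    apply Finset.card_bij (fun (σ : Equiv.Perm (Fin n)) _ => τ * σ)
    · intro σ hσ
      simp only [Finset.mem_filter, Finset.mem_univ, true_and] at hσ ⊢
      rw [← hτ, ← hσ, Finset.image_image]
      rfl
    · intro σ _ σ' _ h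
      exact mul_left_cancel h
    · intro σ hσ
      simp only [Finset.mem_filter, Finset.mem_univ, true_and] at hσ
      refine ⟨τ⁻¹ * σ, ?_, by simp⟩
      simp only [Finset.mem_filter, Finset.mem_univ, true_and]
      have h1 : b.image (⇑(τ⁻¹ * σ)) = (b.image σ).image (⇑τ⁻¹) := by
        rw [Finset.image_image]; rfl
      rw [h1, hσ, ← hτ, Finset.image_image]
      simp [Function.comp_def]
  have hsum : ∀ b ∈ N, ∀ a ∈ N, c b a * n.choose r = Fintype.card (Equiv.Perm (Fin n)) := by
    intro b hb a ha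
    have h1 : ∑ a' ∈ N, c b a' = Fintype.card (Equiv.Perm (Fin n)) := by
      rw [← Finset.card_univ]
      symm
      apply Finset.card_eq_sum_card_fiberwise (f := fun σ : Equiv.Perm (Fin n) => b.image σ)
      intro σ _
      rw [hN, Finset.mem_coe, Finset.mem_powersetCard]
      refine ⟨Finset.subset_univ _, ?_⟩
      rw [Finset.card_image_of_injective _ σ.injective, (Finset.mem_powersetCard.1 hb).2]
    rw [← h1, Finset.sum_congr rfl (fun a' ha' => hc b hb a' ha' a ha), Finset.sum_const,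
      hNc, smul_eq_mul, mul_comm]
  have htot : ∑ σ : Equiv.Perm (Fin n), (A ∩ img σ B).card = ∑ b ∈ B, ∑ a ∈ A, c b a := by
    have h1 : ∀ σ : Equiv.Perm (Fin n), (A ∩ img σ B).card =
        ∑ b ∈ B, ∑ a ∈ A, if b.image σ = a then 1 else 0 := by
      intro σ
      have h2 : A ∩ img σ B = (B.filter (fun b => b.image σ ∈ A)).image (fun b => b.image σ) := by
        ext e
        simp only [img, Finset.mem_inter, Finset.mem_image, Finset.mem_filter]
        constructor
        · rintro ⟨h1, b, hb, rfl⟩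
          exact ⟨b, ⟨hb, h1⟩, rfl⟩
        · rintro ⟨b, ⟨hb, h1⟩, rfl⟩
          exact ⟨h1, b, hb, rfl⟩
      rw [h2, Finset.card_image_of_injective _ (Finset.image_injective σ.injective),
        Finset.card_filter]
      apply Finset.sum_congr rfl
      intro b _
      rw [Finset.sum_ite_eq]
    rw [Finset.sum_congr rfl (fun σ _ => h1 σ), Finset.sum_comm]
    apply Finset.sum_congr rfl
    intro b _
    rw [Finset.sum_comm]
    apply Finset.sum_congr rfl
    intro a _
    rw [← Finset.card_filter]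
  by_contra hcon
  push Not at hcon
  have h1 : (∑ σ : Equiv.Perm (Fin n), (A ∩ img σ B).card) * n.choose r
      < ∑ _σ : Equiv.Perm (Fin n), A.card * B.card := by
    rw [Finset.sum_mul]
    apply Finset.sum_lt_sum_of_nonempty
    · exact ⟨1, Finset.mem_univ _⟩
    · intro σ _
      exact hcon σ
  rw [htot, Finset.sum_mul] at h1
  have h2 : ∀ b ∈ B, (∑ a ∈ A, c b a) * n.choose r
      = A.card * Fintype.card (Equiv.Perm (Fin n)) := by
    intro b hb
    rw [Finset.sum_mul, Finset.sum_congr rfl (fun a ha => hsum b (hBN b hb) a (hAN a ha)),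
      Finset.sum_const, smul_eq_mul]
  rw [Finset.sum_congr rfl h2, Finset.sum_const, Finset.sum_const, smul_eq_mul, smul_eq_mul,
    Finset.card_univ] at h1
  apply lt_irrefl _ (lt_of_lt_of_eq h1 _)
  ring

theorem img_inter_mem {n : ℕ} (F : Finset (Finset (Fin n))) (σ : Equiv.Perm (Fin n)) :
    img (⇑σ⁻¹) (img (⇑σ) F) = F := by
  classical
  unfold img
  rw [Finset.image_image]
  simp [Finset.image_image, Function.comp_def]

theorem multi_overlap {n r : ℕ} : ∀ (k : ℕ) (H : Fin (k + 1) → Finset (Finset (Fin n))),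
    (∀ i, IsRGraph r (H i)) → ∃ F : Finset (Finset (Fin n)),
      ∃ σ : Fin (k + 1) → Equiv.Perm (Fin n),
        (∀ i, img (σ i) F ⊆ H i) ∧ IsRGraph r F ∧
          ∏ i, (H i).card ≤ F.card * (n.choose r) ^ k := by
  classical
  intro k
  induction k with
  | zero =>
    intro H hH
    refine ⟨H 0, fun _ => 1, fun i => ?_, hH 0, by simp⟩
    have : i = 0 := Fin.eq_zero i
    subst this
    simp [img]
  | succ k ih =>
    intro H hH
    obtain ⟨F, σ, h1, h2, h3⟩ := ih (fun i => H i.succ) (fun i => hH _)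
    obtain ⟨τ, hτ⟩ := overlap F (H 0) h2 (hH 0)
    refine ⟨F ∩ img τ (H 0), Fin.cons τ⁻¹ σ, ?_, ?_, ?_⟩
    · intro i
      induction i using Fin.cases with
      | zero =>
        simp only [Fin.cons_zero]
        intro e he
        obtain ⟨f, hf, rfl⟩ := Finset.mem_image.1 he
        have hf2 := (Finset.mem_inter.1 hf).2
        obtain ⟨g, hg, rfl⟩ := Finset.mem_image.1 hf2
        have : (g.image ⇑τ).image ⇑τ⁻¹ = g := by
          rw [Finset.image_image]; simp [Function.comp_def]
        rw [this]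
        exact hg
      | succ i =>
        simp only [Fin.cons_succ]
        refine subset_trans ?_ (h1 i)
        exact Finset.image_subset_image Finset.inter_subset_left
    · intro e he
      exact h2 e (Finset.mem_inter.1 he).1
    · rw [Fin.prod_univ_succ]
      calc (H 0).card * ∏ i : Fin (k + 1), (H i.succ).card
          ≤ (H 0).card * (F.card * (n.choose r) ^ k) := Nat.mul_le_mul_left _ h3
        _ = (F.card * (H 0).card) * (n.choose r) ^ k := by ring
        _ ≤ ((F ∩ img τ (H 0)).card * n.choose r) * (n.choose r) ^ k :=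
            Nat.mul_le_mul_right _ hτ
        _ = (F ∩ img τ (H 0)).card * (n.choose r) ^ (k + 1) := by ring

/-- The random overlap bound. -/
theorem common_overlap {n r k e : ℕ} (hk : 0 < k) (H : Fin k → Finset (Finset (Fin n)))
    (hH : ∀ i, IsRGraph r (H i)) (hc : ∀ i, (H i).card = e) :
    ∃ s, Common H s ∧ e ^ k ≤ s * (n.choose r) ^ (k - 1) := by
  obtain ⟨k, rfl⟩ : ∃ k', k = k' + 1 := ⟨k - 1, by omega⟩
  obtain ⟨F, σ, h1, h2, h3⟩ := multi_overlap k H hH
  refine ⟨F.card, ⟨F, σ, rfl, h1⟩, ?_⟩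
  simpa [hc] using h3

/-- `X b`, `b ∈ B`, are pairwise disjoint sets of `g` out-neighbours, disjoint from `B`. -/
def Stars {V : Type*} (R : V → V → Prop) (B : Finset V) (X : V → Finset V) (g : ℕ) : Prop :=
  (∀ b ∈ B, (X b).card = g ∧ (∀ y ∈ X b, R b y) ∧ Disjoint (X b) B) ∧
    (∀ b ∈ B, ∀ b' ∈ B, b ≠ b' → Disjoint (X b) (X b'))

theorem stars_or_cover {V : Type*} [Fintype V] [DecidableEq V] (R : V → V → Prop)
    [DecidableRel R] (hR : ∀ b, ¬ R b b) (g : ℕ) :
    ∀ q, (∃ B X, Stars R B X g ∧ B.card = q) ∨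
      (∃ W : Finset V, W.card ≤ (q - 1) * (g + 1) ∧
        ∀ b, b ∉ W → (Finset.univ.filter (fun y => y ∉ W ∧ R b y)).card < g) := by
  classical
  intro q
  induction q with
  | zero => exact Or.inl ⟨∅, fun _ => ∅, by simp [Stars], rfl⟩
  | succ q ih =>
    rcases ih with ⟨B, X, hS, hB⟩ | ⟨W, hW1, hW2⟩
    · set W := B ∪ B.biUnion X with hW
      have hWc : W.card ≤ q * (g + 1) := by
        calc W.card ≤ B.card + (B.biUnion X).card := Finset.card_union_le _ _
          _ ≤ B.card + ∑ b ∈ B, (X b).card := by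
              gcongr
              exact Finset.card_biUnion_le
          _ = B.card + ∑ b ∈ B, g := by
              rw [Finset.sum_congr rfl (fun b hb => (hS.1 b hb).1)]
          _ = q * (g + 1) := by rw [Finset.sum_const, hB, smul_eq_mul]; ring
      by_cases hcov : ∀ b, b ∉ W → (Finset.univ.filter (fun y => y ∉ W ∧ R b y)).card < g
      · exact Or.inr ⟨W, by simpa using hWc, hcov⟩
      · push Not at hcov
        obtain ⟨b0, hb0, hg⟩ := hcov
        obtain ⟨Y, hY1, hY2⟩ := Finset.exists_subset_card_eq hg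
        have hYW : ∀ y ∈ Y, y ∉ W ∧ R b0 y := fun y hy => by
          simpa using hY1 hy
        have hb0B : b0 ∉ B := fun h => hb0 (Finset.mem_union_left _ h)
        refine Or.inl ⟨insert b0 B, Function.update X b0 Y, ⟨?_, ?_⟩, ?_⟩
        · intro b hb
          rcases Finset.mem_insert.1 hb with rfl | hb
          · simp only [Function.update_self]
            refine ⟨hY2, fun y hy => (hYW y hy).2, ?_⟩
            rw [Finset.disjoint_left]
            intro y hy hy2
            rcases Finset.mem_insert.1 hy2 with rfl | hy2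
            · exact hR _ (hYW _ hy).2
            · exact (hYW y hy).1 (Finset.mem_union_left _ hy2)
          · have hbb : b ≠ b0 := fun h => hb0B (h ▸ hb)
            rw [Function.update_of_ne hbb]
            refine ⟨(hS.1 b hb).1, (hS.1 b hb).2.1, ?_⟩
            rw [Finset.disjoint_insert_right]
            refine ⟨fun h => hb0 ?_, (hS.1 b hb).2.2⟩
            exact Finset.mem_union_right _ (Finset.mem_biUnion.2 ⟨b, hb, h⟩)
        · have key : ∀ b ∈ B, Disjoint (X b) Y := by
            intro b hb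
            rw [Finset.disjoint_right]
            intro y hy hyX
            exact (hYW y hy).1 (Finset.mem_union_right _ (Finset.mem_biUnion.2 ⟨b, hb, hyX⟩))
          intro b hb b' hb' hbb'
          rcases Finset.mem_insert.1 hb with rfl | hb
          · rcases Finset.mem_insert.1 hb' with rfl | hb'
            · exact (hbb' rfl).elim
            · rw [Function.update_self, Function.update_of_ne hbb'.symm]
              exact (key b' hb').symm
          · rename_i hbB
            have hbb : b ≠ b0 := fun h => hb0B (h ▸ hb)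
            rw [Function.update_of_ne hbb]
            rcases Finset.mem_insert.1 hb' with hbe | hb'
            · rw [hbe, Function.update_self]
              exact key b hb
            · have hbb2 : b' ≠ b0 := fun h => hb0B (h ▸ hb')
              rw [Function.update_of_ne hbb2]
              exact hS.2 b hb b' hb' hbb'
        · rw [Finset.card_insert_of_notMem hb0B, hB]
    · refine Or.inr ⟨W, le_trans hW1 ?_, hW2⟩
      apply Nat.mul_le_mul_right
      omega

theorem stars_of_degree {V : Type*} [Fintype V] [DecidableEq V] (R : V → V → Prop)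
    [DecidableRel R] (g q : ℕ) (B : Finset V) (hB : B.card = q)
    (hd : ∀ b ∈ B, q * (g + 1) ≤ (Finset.univ.filter (fun y => R b y)).card) :
    ∃ X, Stars R B X g := by
  classical
  have key : ∀ B' ⊆ B, ∃ X : V → Finset V,
      (∀ b ∈ B', (X b).card = g ∧ (∀ y ∈ X b, R b y) ∧ Disjoint (X b) B) ∧
      (∀ b ∈ B', ∀ b' ∈ B', b ≠ b' → Disjoint (X b) (X b')) := by
    intro B'
    induction B' using Finset.induction_on with
    | empty => intro _; exact ⟨fun _ => ∅, by simp, by simp⟩
    | insert b0 B' hb0 ih =>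
      intro hsub
      obtain ⟨X, hX1, hX2⟩ := ih (subset_trans (Finset.subset_insert _ _) hsub)
      have hb0B : b0 ∈ B := hsub (Finset.mem_insert_self _ _)
      set W := B ∪ B'.biUnion X with hW
      have hcard : B'.card + 1 ≤ q := by
        rw [← hB, ← Finset.card_insert_of_notMem hb0]
        exact Finset.card_le_card hsub
      have hWc : W.card ≤ q + B'.card * g := by
        calc W.card ≤ B.card + (B'.biUnion X).card := Finset.card_union_le _ _
          _ ≤ B.card + ∑ b ∈ B', (X b).card := by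
              gcongr
              exact Finset.card_biUnion_le
          _ = B.card + ∑ b ∈ B', g := by
              rw [Finset.sum_congr rfl (fun b hb => (hX1 b hb).1)]
          _ = q + B'.card * g := by rw [Finset.sum_const, hB, smul_eq_mul]
      have hge : g ≤ ((Finset.univ.filter (fun y => R b0 y)) \ W).card := by
        have h1 := Finset.le_card_sdiff W (Finset.univ.filter (fun y => R b0 y))
        have h2 := hd b0 hb0B
        have h3 : (B'.card + 1) * g ≤ q * g := Nat.mul_le_mul_right _ hcard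
        have h4 : q * (g + 1) = q * g + q := by ring
        have h5 : (B'.card + 1) * g = B'.card * g + g := by ring
        omega
      obtain ⟨Y, hY1, hY2⟩ := Finset.exists_subset_card_eq hge
      have hYW : ∀ y ∈ Y, R b0 y ∧ y ∉ W := fun y hy => by
        have := Finset.mem_sdiff.1 (hY1 hy)
        simpa using this
      have keyd : ∀ b ∈ B', Disjoint (X b) Y := by
        intro b hb
        rw [Finset.disjoint_right]
        intro y hy hyX
        exact (hYW y hy).2 (Finset.mem_union_right _ (Finset.mem_biUnion.2 ⟨b, hb, hyX⟩))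
      refine ⟨Function.update X b0 Y, ?_, ?_⟩
      · intro b hb
        rcases Finset.mem_insert.1 hb with rfl | hb
        · simp only [Function.update_self]
          refine ⟨hY2, fun y hy => (hYW y hy).1, ?_⟩
          rw [Finset.disjoint_left]
          intro y hy hy2
          exact (hYW y hy).2 (Finset.mem_union_left _ hy2)
        · have hbb : b ≠ b0 := fun h => hb0 (h ▸ hb)
          rw [Function.update_of_ne hbb]
          exact hX1 b hb
      · intro b hb b' hb' hbb'
        rcases Finset.mem_insert.1 hb with rfl | hb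
        · rcases Finset.mem_insert.1 hb' with rfl | hb'
          · exact (hbb' rfl).elim
          · rw [Function.update_self, Function.update_of_ne hbb'.symm]
            exact (keyd b' hb').symm
        · have hbb : b ≠ b0 := fun h => hb0 (h ▸ hb)
          rw [Function.update_of_ne hbb]
          rcases Finset.mem_insert.1 hb' with hbe | hb'
          · rw [hbe, Function.update_self]
            exact keyd b hb
          · have hbb2 : b' ≠ b0 := fun h => hb0 (h ▸ hb')
            rw [Function.update_of_ne hbb2]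
            exact hX2 b hb b' hb' hbb'
  obtain ⟨X, hX1, hX2⟩ := key B (Finset.Subset.refl _)
  exact ⟨X, hX1, hX2⟩

/-- Dichotomy for a relation. -/
theorem stars_dichotomy {V : Type*} [Fintype V] [DecidableEq V] (R : V → V → Prop)
    [DecidableRel R] (hR : ∀ b, ¬ R b b) (g q : ℕ)
    (hno : ¬ ∃ B X, Stars R B X g ∧ B.card = q) :
    ∃ C W : Finset V, C.card ≤ q ∧ W.card ≤ q * (g + 1) ∧
      (∀ b, b ∉ C → (Finset.univ.filter (fun y => R b y)).card ≤ q * (g + 1)) ∧
      (∀ b, b ∉ W → (Finset.univ.filter (fun y => y ∉ W ∧ R b y)).card ≤ g) := by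
  classical
  rcases stars_or_cover R hR g q with h | ⟨W, hW1, hW2⟩
  · exact (hno h).elim
  refine ⟨Finset.univ.filter
    (fun b => q * (g + 1) ≤ (Finset.univ.filter (fun y => R b y)).card), W, ?_, ?_, ?_, ?_⟩
  · by_contra hcon
    push Not at hcon
    obtain ⟨B, hB1, hB2⟩ := Finset.exists_subset_card_eq hcon.le
    obtain ⟨X, hX⟩ := stars_of_degree R g q B hB2 (fun b hb => by
      have := hB1 hb
      simpa using this)
    exact hno ⟨B, X, hX, hB2⟩
  · refine le_trans hW1 (Nat.mul_le_mul_right _ (by omega))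
  · intro b hb
    simp only [Finset.mem_filter, Finset.mem_univ, true_and, not_le] at hb
    exact hb.le
  · intro b hb
    exact (hW2 b hb).le

/-- The link relation at `a`, with the middle vertex outside `VH` and the last outside `Hi`. -/
def Rel {n : ℕ} (G : Finset (Finset (Fin n))) (Hi VH : Finset (Fin n)) (a b x : Fin n) : Prop :=
  ({a, b, x} : Finset (Fin n)) ∈ G ∧ b ∉ VH ∧ x ∉ Hi

instance {n : ℕ} (G : Finset (Finset (Fin n))) (Hi VH : Finset (Fin n)) (a : Fin n) :
    DecidableRel (Rel G Hi VH a) := fun _ _ => by unfold Rel; infer_instance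

theorem Rel.irrefl {n : ℕ} {G : Finset (Finset (Fin n))} (hG : IsRGraph 3 G)
    {Hi VH : Finset (Fin n)} {a b : Fin n} : ¬ Rel G Hi VH a b b := by
  intro h
  have h1 := hG _ h.1
  have h2 : ({a, b, b} : Finset (Fin n)).card ≤ 2 := by
    rw [Finset.insert_eq_of_mem (a := b) (by simp)]
    exact Finset.card_le_two
  omega

/-- Triples `{u,v,w}` with `u ∈ S` and `(v,w) ∈ N u`. -/
def triples {n : ℕ} (S : Finset (Fin n)) (N : Fin n → Finset (Fin n × Fin n)) :
    Finset (Finset (Fin n)) :=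
  S.biUnion (fun u => (N u).image (fun p => ({u, p.1, p.2} : Finset (Fin n))))

theorem mem_triples {n : ℕ} {S : Finset (Fin n)} {N : Fin n → Finset (Fin n × Fin n)}
    {u v w : Fin n} (hu : u ∈ S) (h : (v, w) ∈ N u) : ({u, v, w} : Finset (Fin n)) ∈ triples S N :=
  Finset.mem_biUnion.2 ⟨u, hu, Finset.mem_image.2 ⟨(v, w), h, rfl⟩⟩

theorem card_triples {n : ℕ} (S : Finset (Fin n)) (N : Fin n → Finset (Fin n × Fin n)) (M : ℕ)
    (hM : ∀ u ∈ S, (N u).card ≤ M) : (triples S N).card ≤ S.card * M := by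
  refine le_trans Finset.card_biUnion_le ?_
  rw [← smul_eq_mul]
  apply Finset.sum_le_card_nsmul
  intro u hu
  exact le_trans Finset.card_image_le (hM u hu)

theorem card_sigma_le {n : ℕ} (S : Finset (Fin n)) (T : Fin n → Finset (Fin n)) (M : ℕ)
    (hM : ∀ u ∈ S, (T u).card ≤ M) :
    (S.biUnion (fun v => (T v).image (fun w => (v, w)))).card ≤ S.card * M := by
  refine le_trans Finset.card_biUnion_le ?_
  rw [← smul_eq_mul]
  apply Finset.sum_le_card_nsmul
  intro u hu
  exact le_trans Finset.card_image_le (hM u hu)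

theorem perm1 {n : ℕ} (x y z : Fin n) : ({y, x, z} : Finset (Fin n)) = {x, y, z} := by
  ext a; simp; tauto

theorem perm2 {n : ℕ} (x y z : Fin n) : ({x, z, y} : Finset (Fin n)) = {x, y, z} := by
  ext a; simp; tauto

theorem perm3 {n : ℕ} (x y z : Fin n) : ({y, z, x} : Finset (Fin n)) = {x, y, z} := by
  ext a; simp; tauto

theorem perm4 {n : ℕ} (x y z : Fin n) : ({z, x, y} : Finset (Fin n)) = {x, y, z} := by
  ext a; simp; tauto

theorem perm5 {n : ℕ} (x y z : Fin n) : ({z, y, x} : Finset (Fin n)) = {x, y, z} := by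
  ext a; simp; tauto

theorem no_book_bound {n : ℕ} (G : Finset (Finset (Fin n))) (hG : IsRGraph 3 G)
    (Hi VH : Finset (Fin n)) (q g : ℕ) (hVH : VH ⊆ Hi)
    (hno : ∀ a, ¬ ∃ B X, Stars (Rel G Hi VH a) B X g ∧ B.card = q) :
    G.card ≤ Hi.card ^ 3 + VH.card ^ 2 * n + Hi.card * (q * n)
      + Hi.card * ((q * (g + 1)) ^ 2 + Hi.card * g + Hi.card * (q * (g + 1)))
      + n * (2 * (q * (g + 1)) ^ 2 + n * g) + n * q ^ 2 := by
  classical
  have hdich := fun a => stars_dichotomy (Rel G Hi VH a) (fun b => Rel.irrefl hG) g q (hno a)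
  choose C W hC hW hCd hWd using hdich
  set T1 := triples Hi (fun _ => Hi ×ˢ Hi) with hT1
  set T2 := triples VH (fun _ => VH ×ˢ Finset.univ) with hT2
  set T3 := triples Hi (fun u => C u ×ˢ Finset.univ) with hT3
  set A1 : Fin n → Finset (Fin n × Fin n) := fun u => (W u \ C u).biUnion
    (fun v => (Finset.univ.filter (fun y => Rel G Hi VH u v y)).image (fun w => (v, w))) with hA1
  set A4 : Fin n → Finset (Fin n × Fin n) := fun u => (Hi \ W u).biUnion
    (fun v => (Finset.univ.filter (fun y => y ∉ W u ∧ Rel G Hi VH u v y)).image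
      (fun w => (v, w))) with hA4
  set A5 : Fin n → Finset (Fin n × Fin n) := fun u => ((W u)ᶜ).biUnion
    (fun v => (Finset.univ.filter (fun y => y ∉ W u ∧ Rel G Hi VH u v y)).image
      (fun w => (v, w))) with hA5
  set T4 := triples Hi (fun u => A1 u ∪ A4 u ∪ (Hi ×ˢ W u)) with hT4
  set T5 := triples Finset.univ (fun u => A1 u ∪ (A1 u) ∪ A5 u) with hT5
  set T6 := triples Finset.univ (fun u => (C u).biUnion (fun v => (C v).image (fun w => (v, w))))
    with hT6
  have hA1c : ∀ u, (A1 u).card ≤ (q * (g + 1)) ^ 2 := by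
    intro u
    refine le_trans (card_sigma_le _ _ (q * (g + 1)) ?_) ?_
    · intro v hv
      exact hCd u v (Finset.mem_sdiff.1 hv).2
    · rw [pow_two]
      apply Nat.mul_le_mul_right
      exact le_trans (Finset.card_le_card Finset.sdiff_subset) (hW u)
  have hA4c : ∀ u, (A4 u).card ≤ Hi.card * g := by
    intro u
    refine le_trans (card_sigma_le _ _ g ?_) ?_
    · intro v hv
      exact hWd u v (Finset.mem_sdiff.1 hv).2
    · apply Nat.mul_le_mul_right
      exact Finset.card_le_card Finset.sdiff_subset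
  have hA5c : ∀ u, (A5 u).card ≤ n * g := by
    intro u
    refine le_trans (card_sigma_le _ _ g ?_) ?_
    · intro v hv
      exact hWd u v (Finset.mem_compl.1 hv)
    · apply Nat.mul_le_mul_right
      refine le_trans (Finset.card_le_univ _) (by simp)
  have hT1c : T1.card ≤ Hi.card ^ 3 := by
    refine le_trans (card_triples _ _ (Hi.card * Hi.card) (fun u _ => ?_)) (le_of_eq (by ring))
    rw [Finset.card_product]
  have hT2c : T2.card ≤ VH.card ^ 2 * n := by
    refine le_trans (card_triples _ _ (VH.card * n) (fun u _ => ?_)) (le_of_eq (by ring))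
    rw [Finset.card_product, Finset.card_univ, Fintype.card_fin]
  have hT3c : T3.card ≤ Hi.card * (q * n) := by
    refine card_triples _ _ (q * n) (fun u _ => ?_)
    rw [Finset.card_product, Finset.card_univ, Fintype.card_fin]
    exact Nat.mul_le_mul_right _ (hC u)
  have hT4c : T4.card ≤
      Hi.card * ((q * (g + 1)) ^ 2 + Hi.card * g + Hi.card * (q * (g + 1))) := by
    refine card_triples _ _ _ (fun u _ => ?_)
    refine le_trans (Finset.card_union_le _ _) ?_
    refine add_le_add (le_trans (Finset.card_union_le _ _) (add_le_add (hA1c u) (hA4c u))) ?_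
    rw [Finset.card_product]
    exact Nat.mul_le_mul_left _ (hW u)
  have hT5c : T5.card ≤ n * (2 * (q * (g + 1)) ^ 2 + n * g) := by
    refine le_trans (card_triples _ _ (2 * (q * (g + 1)) ^ 2 + n * g) (fun u _ => ?_)) ?_
    · refine le_trans (Finset.card_union_le _ _) ?_
      refine add_le_add (le_trans (Finset.card_union_le _ _) ?_) (hA5c u)
      have := hA1c u
      omega
    · rw [Finset.card_univ, Fintype.card_fin]
  have hT6c : T6.card ≤ n * q ^ 2 := by
    refine le_trans (card_triples _ _ (q ^ 2) (fun u _ => ?_)) ?_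
    · refine le_trans (card_sigma_le _ _ q (fun v _ => hC v)) ?_
      rw [pow_two]
      exact Nat.mul_le_mul_right _ (hC u)
    · rw [Finset.card_univ, Fintype.card_fin]
  -- covering
  set 𝒰 := T1 ∪ T2 ∪ T3 ∪ T4 ∪ T5 ∪ T6 with h𝒰
  have hm1 : ∀ e, e ∈ T1 → e ∈ 𝒰 := by intro e he; simp only [h𝒰, Finset.mem_union]; tauto
  have hm2 : ∀ e, e ∈ T2 → e ∈ 𝒰 := by intro e he; simp only [h𝒰, Finset.mem_union]; tauto
  have hm3 : ∀ e, e ∈ T3 → e ∈ 𝒰 := by intro e he; simp only [h𝒰, Finset.mem_union]; tauto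
  have hm4 : ∀ e, e ∈ T4 → e ∈ 𝒰 := by intro e he; simp only [h𝒰, Finset.mem_union]; tauto
  have hm5 : ∀ e, e ∈ T5 → e ∈ 𝒰 := by intro e he; simp only [h𝒰, Finset.mem_union]; tauto
  have hm6 : ∀ e, e ∈ T6 → e ∈ 𝒰 := by intro e he; simp only [h𝒰, Finset.mem_union]; tauto
  have L1 : ∀ u v w, u ∈ Hi → v ∈ Hi → w ∈ Hi → ({u, v, w} : Finset (Fin n)) ∈ 𝒰 := by
    intro u v w hu hv hw
    exact hm1 _ (mem_triples hu (Finset.mem_product.2 ⟨hv, hw⟩))
  have L2 : ∀ u v w, u ∈ VH → v ∈ VH → ({u, v, w} : Finset (Fin n)) ∈ 𝒰 := by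
    intro u v w hu hv
    exact hm2 _ (mem_triples hu (Finset.mem_product.2 ⟨hv, Finset.mem_univ _⟩))
  have L3 : ∀ u v w, ({u, v, w} : Finset (Fin n)) ∈ G → u ∈ Hi → v ∈ Hi → v ∉ VH → w ∉ Hi →
      ({u, v, w} : Finset (Fin n)) ∈ 𝒰 := by
    intro u v w hG hu hv hv2 hw
    have hR : Rel G Hi VH u v w := ⟨hG, hv2, hw⟩
    by_cases h1 : v ∈ C u
    · exact hm3 _ (mem_triples hu (Finset.mem_product.2 ⟨h1, Finset.mem_univ _⟩))
    · apply hm4
      apply mem_triples hu
      by_cases h2 : v ∈ W u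
      · apply Finset.mem_union_left
        apply Finset.mem_union_left
        refine Finset.mem_biUnion.2 ⟨v, Finset.mem_sdiff.2 ⟨h2, h1⟩, Finset.mem_image.2 ⟨w, ?_, rfl⟩⟩
        simpa using hR
      · by_cases h3 : w ∈ W u
        · apply Finset.mem_union_right
          exact Finset.mem_product.2 ⟨hv, h3⟩
        · apply Finset.mem_union_left
          apply Finset.mem_union_right
          refine Finset.mem_biUnion.2 ⟨v, Finset.mem_sdiff.2 ⟨hv, h2⟩,
            Finset.mem_image.2 ⟨w, ?_, rfl⟩⟩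
          simpa using ⟨h3, hR⟩
  have L5 : ∀ u v w, ({u, v, w} : Finset (Fin n)) ∈ G → v ∉ Hi → w ∉ Hi → v ∉ C u → w ∉ C u →
      ({u, v, w} : Finset (Fin n)) ∈ 𝒰 := by
    intro u v w hG hv hw hvC hwC
    have hR : Rel G Hi VH u v w := ⟨hG, fun h => hv (hVH h), hw⟩
    have hR' : Rel G Hi VH u w v := ⟨by rw [perm2]; exact hG, fun h => hw (hVH h), hv⟩
    apply hm5
    by_cases h2 : v ∈ W u
    · apply mem_triples (Finset.mem_univ _)
      apply Finset.mem_union_left
      apply Finset.mem_union_left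
      refine Finset.mem_biUnion.2 ⟨v, Finset.mem_sdiff.2 ⟨h2, hvC⟩, Finset.mem_image.2 ⟨w, ?_, rfl⟩⟩
      simpa using hR
    · by_cases h3 : w ∈ W u
      · rw [← perm2]
        apply mem_triples (Finset.mem_univ _)
        apply Finset.mem_union_left
        apply Finset.mem_union_left
        refine Finset.mem_biUnion.2 ⟨w, Finset.mem_sdiff.2 ⟨h3, hwC⟩,
          Finset.mem_image.2 ⟨v, ?_, rfl⟩⟩
        simpa using hR'
      · apply mem_triples (Finset.mem_univ _)
        apply Finset.mem_union_right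
        refine Finset.mem_biUnion.2 ⟨v, Finset.mem_compl.2 h2, Finset.mem_image.2 ⟨w, ?_, rfl⟩⟩
        simpa using ⟨h3, hR⟩
  have L4 : ∀ u v w, ({u, v, w} : Finset (Fin n)) ∈ G → u ∈ Hi → v ∉ Hi → w ∉ Hi →
      ({u, v, w} : Finset (Fin n)) ∈ 𝒰 := by
    intro u v w hG hu hv hw
    by_cases h1 : v ∈ C u
    · exact hm3 _ (mem_triples hu (Finset.mem_product.2 ⟨h1, Finset.mem_univ _⟩))
    · by_cases h2 : w ∈ C u
      · rw [← perm2]
        exact hm3 _ (mem_triples hu (Finset.mem_product.2 ⟨h2, Finset.mem_univ _⟩))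
      · exact L5 u v w hG hv hw h1 h2
  have L6 : ∀ u v w, v ∈ C u → w ∈ C v → ({u, v, w} : Finset (Fin n)) ∈ 𝒰 := by
    intro u v w hv hw
    apply hm6
    apply mem_triples (Finset.mem_univ _)
    exact Finset.mem_biUnion.2 ⟨v, hv, Finset.mem_image.2 ⟨w, hw, rfl⟩⟩
  have hcov : G ⊆ 𝒰 := by
    intro e he
    obtain ⟨x, y, z, hxy, hxz, hyz, rfl⟩ := Finset.card_eq_three.1 (hG e he)
    have g1 : ({y, x, z} : Finset (Fin n)) ∈ G := by rw [perm1]; exact he
    have g2 : ({x, z, y} : Finset (Fin n)) ∈ G := by rw [perm2]; exact he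
    have g3 : ({y, z, x} : Finset (Fin n)) ∈ G := by rw [perm3]; exact he
    have g4 : ({z, x, y} : Finset (Fin n)) ∈ G := by rw [perm4]; exact he
    have g5 : ({z, y, x} : Finset (Fin n)) ∈ G := by rw [perm5]; exact he
    -- two high vertices
    have K2 : ∀ u v w, ({u, v, w} : Finset (Fin n)) ∈ G → u ∈ Hi → v ∈ Hi → w ∉ Hi →
        ({u, v, w} : Finset (Fin n)) ∈ 𝒰 := by
      intro u v w hG hu hv hw
      by_cases h1 : v ∈ VH
      · by_cases h2 : u ∈ VH
        · exact L2 u v w h2 h1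
        · rw [← perm1]
          exact L3 v u w (by rw [perm1]; exact hG) hv hu h2 hw
      · exact L3 u v w hG hu hv h1 hw
    by_cases hx : x ∈ Hi <;> by_cases hy : y ∈ Hi <;> by_cases hz : z ∈ Hi
    · exact L1 _ _ _ hx hy hz
    · exact K2 _ _ _ he hx hy hz
    · rw [← perm2]; exact K2 _ _ _ g2 hx hz hy
    · exact L4 _ _ _ he hx hy hz
    · rw [← perm3]; exact K2 _ _ _ g3 hy hz hx
    · rw [← perm1]; exact L4 _ _ _ g1 hy hx hz
    · rw [← perm4]; exact L4 _ _ _ g4 hz hx hy
    · by_cases h1 : y ∈ C x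
      · by_cases h2 : z ∈ C y
        · exact L6 _ _ _ h1 h2
        · by_cases h3 : x ∈ C y
          · by_cases h4 : x ∈ C z
            · rw [← perm4]; exact L6 _ _ _ h4 h1
            · by_cases h5 : y ∈ C z
              · rw [← perm5]; exact L6 _ _ _ h5 h3
              · rw [← perm4]; exact L5 _ _ _ g4 hx hy h4 h5
          · rw [← perm1]; exact L5 _ _ _ g1 hx hz h3 h2
      · by_cases h2 : z ∈ C x
        · by_cases h3 : y ∈ C z
          · rw [← perm2]; exact L6 _ _ _ h2 h3
          · by_cases h4 : x ∈ C z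
            · by_cases h5 : x ∈ C y
              · rw [← perm1]; exact L6 _ _ _ h5 h2
              · by_cases h6 : z ∈ C y
                · rw [← perm3]; exact L6 _ _ _ h6 h4
                · rw [← perm1]; exact L5 _ _ _ g1 hx hz h5 h6
            · rw [← perm4]; exact L5 _ _ _ g4 hx hy h4 h3
        · exact L5 _ _ _ he hy hz h1 h2
  calc G.card ≤ 𝒰.card := Finset.card_le_card hcov
    _ ≤ T1.card + T2.card + T3.card + T4.card + T5.card + T6.card := by
        rw [h𝒰]
        refine le_trans (Finset.card_union_le _ _) (Nat.add_le_add_right ?_ _)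
        refine le_trans (Finset.card_union_le _ _) (Nat.add_le_add_right ?_ _)
        refine le_trans (Finset.card_union_le _ _) (Nat.add_le_add_right ?_ _)
        refine le_trans (Finset.card_union_le _ _) (Nat.add_le_add_right ?_ _)
        exact Finset.card_union_le _ _
    _ ≤ _ := by
        refine add_le_add (add_le_add (add_le_add (add_le_add (add_le_add hT1c hT2c) hT3c) hT4c)
          hT5c) hT6c

/-- The vertices of a star-book: a centre, `q` middle vertices and `g` pages for each. -/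
abbrev TB (q g : ℕ) := Option (Fin q × Option (Fin g))

/-- The edges of `r` disjoint star-books. -/
def BK (r q g : ℕ) : Finset (Finset (Fin r × TB q g)) :=
  Finset.univ.image (fun p : Fin r × Fin q × Fin g =>
    ({(p.1, none), (p.1, some (p.2.1, none)), (p.1, some (p.2.1, some p.2.2))} :
      Finset (Fin r × TB q g)))

theorem card_BK (r q g : ℕ) : (BK r q g).card = r * (q * g) := by
  unfold BK
  rw [Finset.card_image_of_injective]
  · simp
  · rintro ⟨a, b, c⟩ ⟨a', b', c'⟩ h
    have h1 : ((a, some (b, some c)) : Fin r × TB q g) ∈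
        ({(a', none), (a', some (b', none)), (a', some (b', some c'))} :
          Finset (Fin r × TB q g)) := by
      simp only at h
      rw [← h]
      simp
    simp at h1
    simp [h1]

theorem exists_book_map {n : ℕ} (G : Finset (Finset (Fin n))) (hG : IsRGraph 3 G)
    (Hi VH : Finset (Fin n)) (q g : ℕ) (hg : 0 < g) (a : Fin n) (B : Finset (Fin n))
    (X : Fin n → Finset (Fin n)) (hS : Stars (Rel G Hi VH a) B X g) (hB : B.card = q) :
    ∃ φ : TB q g → Fin n, Function.Injective φ ∧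
      (∀ i j, ({φ none, φ (some (i, none)), φ (some (i, some j))} : Finset (Fin n)) ∈ G) ∧
      (∀ i, φ (some (i, none)) ∉ VH) ∧ (∀ i j, φ (some (i, some j)) ∉ Hi) := by
  classical
  set β := B.orderEmbOfFin hB with hβ
  have hβm : ∀ i, β i ∈ B := fun i => Finset.orderEmbOfFin_mem _ _ _
  set γ : ∀ i : Fin q, Fin g ↪o Fin n := fun i => (X (β i)).orderEmbOfFin ((hS.1 (β i) (hβm i)).1)
    with hγ
  have hγm : ∀ i j, γ i j ∈ X (β i) := fun i j => Finset.orderEmbOfFin_mem _ _ _
  have hrel : ∀ i j, Rel G Hi VH a (β i) (γ i j) := fun i j =>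
    (hS.1 (β i) (hβm i)).2.1 _ (hγm i j)
  have hne : ∀ u v w : Fin n, ({u, v, w} : Finset (Fin n)) ∈ G → u ≠ v ∧ u ≠ w ∧ v ≠ w := by
    intro u v w h
    have h1 := hG _ h
    refine ⟨?_, ?_, ?_⟩
    · rintro rfl
      rw [Finset.insert_eq_of_mem (by simp)] at h1
      have := Finset.card_le_two (a := u) (b := w)
      omega
    · rintro rfl
      rw [Finset.insert_eq_of_mem (by simp)] at h1
      have := Finset.card_le_two (a := v) (b := u)
      omega
    · rintro rfl
      rw [Finset.insert_eq_of_mem (a := v) (by simp)] at h1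
      have := Finset.card_le_two (a := u) (b := v)
      omega
  set φ : TB q g → Fin n := fun t => match t with
    | none => a
    | some (i, none) => β i
    | some (i, some j) => γ i j with hφ
  have e1 : φ none = a := rfl
  have e2 : ∀ i, φ (some (i, none)) = β i := fun i => rfl
  have e3 : ∀ i j, φ (some (i, some j)) = γ i j := fun i j => rfl
  have j0 : Fin g := ⟨0, hg⟩
  have hab : ∀ i, a ≠ β i := fun i => (hne _ _ _ (hrel i j0).1).1
  have hax : ∀ i j, a ≠ γ i j := fun i j => (hne _ _ _ (hrel i j).1).2.1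
  have hbx : ∀ i i' j, β i ≠ γ i' j := by
    intro i i' j h
    have h1 := (hS.1 (β i') (hβm i')).2.2
    rw [Finset.disjoint_left] at h1
    exact h1 (hγm i' j) (h ▸ hβm i)
  refine ⟨φ, ?_, ?_, ?_, ?_⟩
  · rintro (_ | ⟨i, _ | j⟩) (_ | ⟨i', _ | j'⟩) h
    · rfl
    · exact (hab _ h).elim
    · exact (hax _ _ h).elim
    · exact (hab _ h.symm).elim
    · have : i = i' := β.injective h
      rw [this]
    · exact (hbx _ _ _ h).elim
    · exact (hax _ _ h.symm).elim
    · exact (hbx _ _ _ h.symm).elim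
    · by_cases hii : i = i'
      · subst hii
        have : j = j' := (γ i).injective h
        rw [this]
      · have h1 : β i ≠ β i' := fun h => hii (β.injective h)
        have h2 := hS.2 _ (hβm i) _ (hβm i') h1
        rw [Finset.disjoint_left] at h2
        exfalso
        apply h2 (hγm i j)
        have h3 : γ i j = γ i' j' := h
        rw [h3]
        exact hγm i' j'
  · intro i j
    exact (hrel i j).1
  · intro i
    exact (hrel i j0).2.1
  · intro i j
    exact (hrel i j).2.2

theorem img_BK_subset {n r q g : ℕ} (G : Finset (Finset (Fin n))) (φ : Fin r → TB q g → Fin n)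
    (h : ∀ ρ i j, ({φ ρ none, φ ρ (some (i, none)), φ ρ (some (i, some j))} :
      Finset (Fin n)) ∈ G) :
    img (fun p : Fin r × TB q g => φ p.1 p.2) (BK r q g) ⊆ G := by
  classical
  intro e he
  simp only [img, BK, Finset.mem_image, Finset.mem_univ, true_and] at he
  obtain ⟨f, ⟨⟨ρ, i, j⟩, rfl⟩, rfl⟩ := he
  rw [Finset.image_insert, Finset.image_insert, Finset.image_singleton]
  exact h ρ i j

/-- The linear star: a 3-graph with more than `4 q² n` edges contains a star with `q` edges. -/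
theorem exists_star {n : ℕ} (G : Finset (Finset (Fin n))) (hG : IsRGraph 3 G) (q : ℕ)
    (hq : n * (2 * q) ^ 2 < G.card) :
    ∃ φ : Fin 1 × TB q 1 → Fin n, Function.Injective φ ∧ img φ (BK 1 q 1) ⊆ G := by
  classical
  have key : ∃ a, ∃ B X, Stars (Rel G ∅ ∅ a) B X 1 ∧ B.card = q := by
    by_contra hno
    push Not at hno
    have hW : ∀ a, ∃ W : Finset (Fin n), W.card ≤ 2 * q ∧
        ∀ b, b ∉ W → (Finset.univ.filter (fun y => y ∉ W ∧ Rel G ∅ ∅ a b y)).card < 1 := by
      intro a
      rcases stars_or_cover (Rel G ∅ ∅ a) (fun b => Rel.irrefl hG) 1 q with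
        ⟨B, X, h1, h2⟩ | ⟨W, h1, h2⟩
      · exact (hno a B X h1 h2).elim
      · exact ⟨W, by omega, h2⟩
    choose W hWc hW using hW
    have hcov : ∀ u v w, ({u, v, w} : Finset (Fin n)) ∈ G → v ∈ W u ∨ w ∈ W u := by
      intro u v w h
      by_contra hcon
      push Not at hcon
      have h1 := hW u v hcon.1
      rw [Nat.lt_one_iff, Finset.card_eq_zero, Finset.filter_eq_empty_iff] at h1
      exact h1 (Finset.mem_univ w) ⟨hcon.2, h, by simp, by simp⟩
    set T6 := triples Finset.univ (fun u => (W u).biUnion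
      (fun v => (W v).image (fun w => (v, w)))) with hT6
    have L6 : ∀ u v w, v ∈ W u → w ∈ W v → ({u, v, w} : Finset (Fin n)) ∈ T6 := by
      intro u v w hv hw
      apply mem_triples (Finset.mem_univ _)
      exact Finset.mem_biUnion.2 ⟨v, hv, Finset.mem_image.2 ⟨w, hw, rfl⟩⟩
    have hsub : G ⊆ T6 := by
      intro e he
      obtain ⟨x, y, z, hxy, hxz, hyz, rfl⟩ := Finset.card_eq_three.1 (hG e he)
      have g1 : ({y, x, z} : Finset (Fin n)) ∈ G := by rw [perm1]; exact he
      have g4 : ({z, x, y} : Finset (Fin n)) ∈ G := by rw [perm4]; exact he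
      have h1 := hcov _ _ _ he
      have h2 := hcov _ _ _ g1
      have h3 := hcov _ _ _ g4
      rcases h1 with h1 | h1
      · rcases h2 with h2 | h2
        · rcases h3 with h3 | h3
          · rw [← perm4]; exact L6 _ _ _ h3 h1
          · rw [← perm5]; exact L6 _ _ _ h3 h2
        · exact L6 _ _ _ h1 h2
      · rcases h3 with h3 | h3
        · rcases h2 with h2 | h2
          · rw [← perm1]; exact L6 _ _ _ h2 h1
          · rw [← perm3]; exact L6 _ _ _ h2 h3
        · rw [← perm2]; exact L6 _ _ _ h1 h3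
    have hc : T6.card ≤ n * (2 * q) ^ 2 := by
      refine le_trans (card_triples _ _ ((2 * q) ^ 2) (fun u _ => ?_)) ?_
      · refine le_trans (card_sigma_le _ _ (2 * q) (fun v _ => hWc v)) ?_
        rw [pow_two]
        exact Nat.mul_le_mul_right _ (hWc u)
      · rw [Finset.card_univ, Fintype.card_fin]
    exact absurd (lt_of_lt_of_le hq (le_trans (Finset.card_le_card hsub) hc)) (lt_irrefl _)
  obtain ⟨a, B, X, hS, hB⟩ := key
  obtain ⟨φ, h1, h2, -, -⟩ := exists_book_map G hG ∅ ∅ q 1 one_pos a B X hS hB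
  refine ⟨fun p => φ p.2, ?_, ?_⟩
  · rintro ⟨i, t⟩ ⟨i', t'⟩ h
    have h3 := h1 h
    have h4 : i = i' := Subsingleton.elim _ _
    simp only at h3
    rw [h3, h4]
  · exact img_BK_subset G (fun _ => φ) (fun _ i j => h2 i j)

/-- degree of a vertex -/
def deg {n : ℕ} (G : Finset (Finset (Fin n))) (v : Fin n) : ℕ := (G.filter (fun e => v ∈ e)).card

theorem sum_deg {n : ℕ} (G : Finset (Finset (Fin n))) (hG : IsRGraph 3 G) :
    ∑ v, deg G v = 3 * G.card := by
  classical
  unfold deg
  simp_rw [Finset.card_filter]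
  rw [Finset.sum_comm]
  have : ∀ e ∈ G, ∑ v : Fin n, (if v ∈ e then 1 else 0) = 3 := by
    intro e he
    rw [← Finset.card_filter, Finset.filter_mem_eq_inter, Finset.univ_inter]
    exact hG e he
  rw [Finset.sum_congr rfl this, Finset.sum_const, smul_eq_mul, mul_comm]

theorem deg_le {n : ℕ} (G : Finset (Finset (Fin n))) (hG : IsRGraph 3 G) (a : Fin n) :
    deg G a ≤ n ^ 2 := by
  classical
  unfold deg
  have h : G.filter (fun e => a ∈ e) ⊆ triples {a} (fun _ => Finset.univ) := by
    intro e he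
    rw [Finset.mem_filter] at he
    obtain ⟨x, y, z, hxy, hxz, hyz, rfl⟩ := Finset.card_eq_three.1 (hG e he.1)
    have h2 := he.2
    simp only [Finset.mem_insert, Finset.mem_singleton] at h2
    rcases h2 with rfl | rfl | rfl
    · exact mem_triples (Finset.mem_singleton_self _) (Finset.mem_univ _)
    · rw [← perm1]; exact mem_triples (Finset.mem_singleton_self _) (Finset.mem_univ _)
    · rw [← perm4]; exact mem_triples (Finset.mem_singleton_self _) (Finset.mem_univ _)
  refine le_trans (Finset.card_le_card h) ?_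
  refine le_trans (card_triples _ _ (n ^ 2) (fun u _ => ?_)) (by simp)
  rw [Finset.card_univ, Fintype.card_prod, Fintype.card_fin, pow_two]

/-- the edges of `G` not meeting `S` -/
def away {n : ℕ} (G : Finset (Finset (Fin n))) (S : Finset (Fin n)) : Finset (Finset (Fin n)) :=
  G.filter (fun e => Disjoint e S)

theorem card_meet_le {n : ℕ} (G : Finset (Finset (Fin n))) (S : Finset (Fin n)) :
    G.card ≤ (away G S).card + ∑ v ∈ S, deg G v := by
  unfold away
  have h : G ⊆ G.filter (fun e => Disjoint e S) ∪ S.biUnion (fun v => G.filter (fun e => v ∈ e)) := by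
    intro e he
    by_cases hd : Disjoint e S
    · exact Finset.mem_union_left _ (Finset.mem_filter.2 ⟨he, hd⟩)
    · rw [Finset.not_disjoint_iff] at hd
      obtain ⟨v, hv1, hv2⟩ := hd
      exact Finset.mem_union_right _ (Finset.mem_biUnion.2 ⟨v, hv2, Finset.mem_filter.2 ⟨he, hv1⟩⟩)
  refine le_trans (Finset.card_le_card h) (le_trans (Finset.card_union_le _ _) ?_)
  exact Nat.add_le_add_left Finset.card_biUnion_le _

/-- The bound of `no_book_bound` as a function. -/
def bnd (n h h' q g : ℕ) : ℕ := h ^ 3 + h' ^ 2 * n + h * (q * n)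
      + h * ((q * (g + 1)) ^ 2 + h * g + h * (q * (g + 1)))
      + n * (2 * (q * (g + 1)) ^ 2 + n * g) + n * q ^ 2

theorem bnd_mono {n h h' q g k k' : ℕ} (hk : h ≤ k) (hk' : h' ≤ k') :
    bnd n h h' q g ≤ bnd n k k' q g := by
  unfold bnd
  gcongr

/-- A 3-graph with many edges contains `r` disjoint star-books with parameters `q, g`. -/
theorem exists_books {n : ℕ} (G : Finset (Finset (Fin n))) (hG : IsRGraph 3 G) (r q g : ℕ)
    (hr : 0 < r) (hq : 0 < q) (hg : 0 < g) (h1 : 4 * (r * n ^ 2) ≤ G.card)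
    (h2 : 2 * bnd n (24 * (r * q * g)) (24 * (r * q)) q g < G.card) :
    ∃ φ : Fin r × TB q g → Fin n, Function.Injective φ ∧ img φ (BK r q g) ⊆ G := by
  classical
  set e := G.card with he
  have hepos : 0 < e := lt_of_le_of_lt (Nat.zero_le _) h2
  set Hi : Finset (Fin n) := Finset.univ.filter (fun v => e < 8 * (r * q * g) * deg G v) with hHi
  set VH : Finset (Fin n) := Finset.univ.filter (fun v => e < 8 * (r * q) * deg G v) with hVH
  have hsubHV : VH ⊆ Hi := by
    intro v hv
    simp only [hVH, hHi, Finset.mem_filter, Finset.mem_univ, true_and] at hv ⊢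
    refine lt_of_lt_of_le hv ?_
    apply Nat.mul_le_mul_right
    apply Nat.mul_le_mul_left
    exact Nat.le_mul_of_pos_right _ hg
  have hcount : ∀ c : ℕ, (Finset.univ.filter (fun v => e < 8 * c * deg G v)).card ≤ 24 * c := by
    intro c
    have h3 : (Finset.univ.filter (fun v => e < 8 * c * deg G v)).card * e ≤ (24 * c) * e := by
      calc (Finset.univ.filter (fun v => e < 8 * c * deg G v)).card * e
          ≤ ∑ v ∈ Finset.univ.filter (fun v => e < 8 * c * deg G v), 8 * c * deg G v := by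
            rw [← smul_eq_mul]
            apply Finset.card_nsmul_le_sum
            intro v hv
            exact (Finset.mem_filter.1 hv).2.le
        _ ≤ ∑ v, 8 * c * deg G v := by
            apply Finset.sum_le_sum_of_subset
            exact Finset.filter_subset _ _
        _ = 8 * c * (3 * e) := by rw [← Finset.mul_sum, sum_deg G hG]
        _ = (24 * c) * e := by ring
    exact Nat.le_of_mul_le_mul_right h3 hepos
  have hHic : Hi.card ≤ 24 * (r * q * g) := hcount _
  have hVHc : VH.card ≤ 24 * (r * q) := hcount _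
  -- greedy
  have key : ∀ m, m ≤ r → ∃ φ : Fin m → TB q g → Fin n, (∀ ρ, Function.Injective (φ ρ)) ∧
      (∀ ρ ρ', ρ ≠ ρ' → ∀ t t', φ ρ t ≠ φ ρ' t') ∧
      (∀ ρ i j, ({φ ρ none, φ ρ (some (i, none)), φ ρ (some (i, some j))} :
        Finset (Fin n)) ∈ G) ∧
      (∀ ρ, 4 * r * ∑ t, deg G (φ ρ t) ≤ 4 * (r * n ^ 2) + e) := by
    intro m
    induction m with
    | zero => intro _; exact ⟨fun i => i.elim0, fun i => i.elim0, fun i => i.elim0,
        fun i => i.elim0, fun i => i.elim0⟩
    | succ m ih =>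
      intro hm
      obtain ⟨φ, hφ1, hφ2, hφ3, hφ4⟩ := ih (by omega)
      set S : Finset (Fin n) := Finset.univ.image (fun p : Fin m × TB q g => φ p.1 p.2) with hS
      have hSdeg : 4 * r * ∑ v ∈ S, deg G v ≤ m * (4 * (r * n ^ 2) + e) := by
        have h3 : ∑ v ∈ S, deg G v ≤ ∑ ρ, ∑ t, deg G (φ ρ t) := by
          rw [hS, Finset.sum_image, Fintype.sum_prod_type]
          rintro ⟨ρ, t⟩ _ ⟨ρ', t'⟩ _ h
          by_cases hρ : ρ = ρ'
          · subst hρ
            have := hφ1 ρ h
            simp only at this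
            rw [this]
          · exact (hφ2 ρ ρ' hρ t t' h).elim
        calc 4 * r * ∑ v ∈ S, deg G v ≤ 4 * r * ∑ ρ, ∑ t, deg G (φ ρ t) :=
              Nat.mul_le_mul_left _ h3
          _ = ∑ ρ, 4 * r * ∑ t, deg G (φ ρ t) := by rw [Finset.mul_sum]
          _ ≤ ∑ _ρ : Fin m, (4 * (r * n ^ 2) + e) := Finset.sum_le_sum (fun ρ _ => hφ4 ρ)
          _ = m * (4 * (r * n ^ 2) + e) := by simp
      set G' := away G S with hG'
      have hG'3 : IsRGraph 3 G' := fun f hf => hG f (Finset.mem_filter.1 hf).1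
      have hG'c : e ≤ 2 * G'.card := by
        have h3 := card_meet_le G S
        rw [← hG'] at h3
        have h4 : 4 * r * ∑ v ∈ S, deg G v ≤ r * (2 * e) := by
          refine le_trans hSdeg ?_
          apply Nat.mul_le_mul (by omega)
          omega
        have h5 : r * (4 * ∑ v ∈ S, deg G v) ≤ r * (2 * e) := by
          calc r * (4 * ∑ v ∈ S, deg G v) = 4 * r * ∑ v ∈ S, deg G v := by ring
            _ ≤ _ := h4
        have h6 := Nat.le_of_mul_le_mul_left h5 hr
        omega
      have hbook : ∃ a, ∃ B X, Stars (Rel G' Hi VH a) B X g ∧ B.card = q := by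
        by_contra hno
        push Not at hno
        have h3 := no_book_bound G' hG'3 Hi VH q g hsubHV (by
          rintro a ⟨B, X, hS, hB⟩
          exact hno a B X hS hB)
        have h4 : G'.card ≤ bnd n (24 * (r * q * g)) (24 * (r * q)) q g :=
          le_trans h3 (bnd_mono hHic hVHc)
        omega
      obtain ⟨a, B, X, hSt, hB⟩ := hbook
      obtain ⟨ψ, hψ1, hψ2, hψ3, hψ4⟩ := exists_book_map G' hG'3 Hi VH q g hg a B X hSt hB
      have hψS : ∀ t, ψ t ∉ S := by
        have h3 : ∀ i j, ψ none ∉ S ∧ ψ (some (i, none)) ∉ S ∧ ψ (some (i, some j)) ∉ S := by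
          intro i j
          have h4 := (Finset.mem_filter.1 (hψ2 i j)).2
          rw [Finset.disjoint_left] at h4
          exact ⟨h4 (by simp), h4 (by simp), h4 (by simp)⟩
        rintro (_ | ⟨i, _ | j⟩)
        · exact (h3 ⟨0, hq⟩ ⟨0, hg⟩).1
        · exact (h3 i ⟨0, hg⟩).2.1
        · exact (h3 i j).2.2
      have hψdeg : 4 * r * ∑ t, deg G (ψ t) ≤ 4 * (r * n ^ 2) + e := by
        have hb : ∀ i, 8 * (r * q) * deg G (ψ (some (i, none))) ≤ e := by
          intro i
          have h3 := hψ3 i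
          simp only [hVH, Finset.mem_filter, Finset.mem_univ, true_and, not_lt] at h3
          exact h3
        have hx : ∀ i j, 8 * (r * q * g) * deg G (ψ (some (i, some j))) ≤ e := by
          intro i j
          have h3 := hψ4 i j
          simp only [hHi, Finset.mem_filter, Finset.mem_univ, true_and, not_lt] at h3
          exact h3
        have hb2 : 8 * r * ∑ i, deg G (ψ (some (i, none))) ≤ e := by
          have h3 : q * (8 * r * ∑ i, deg G (ψ (some (i, none)))) ≤ q * e := by
            calc q * (8 * r * ∑ i, deg G (ψ (some (i, none))))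
                = ∑ i, 8 * (r * q) * deg G (ψ (some (i, none))) := by
                  rw [← Finset.mul_sum]; ring
              _ ≤ ∑ _i : Fin q, e := Finset.sum_le_sum (fun i _ => hb i)
              _ = q * e := by simp
          exact Nat.le_of_mul_le_mul_left h3 hq
        have hx2 : 8 * r * ∑ i, ∑ j, deg G (ψ (some (i, some j))) ≤ e := by
          have h3 : (q * g) * (8 * r * ∑ i, ∑ j, deg G (ψ (some (i, some j)))) ≤ (q * g) * e := by
            calc (q * g) * (8 * r * ∑ i, ∑ j, deg G (ψ (some (i, some j))))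
                = ∑ i, ∑ j, 8 * (r * q * g) * deg G (ψ (some (i, some j))) := by
                  simp_rw [← Finset.mul_sum]; ring
              _ ≤ ∑ _i : Fin q, ∑ _j : Fin g, e :=
                  Finset.sum_le_sum (fun i _ => Finset.sum_le_sum (fun j _ => hx i j))
              _ = (q * g) * e := by simp; ring
          exact Nat.le_of_mul_le_mul_left h3 (Nat.mul_pos hq hg)
        have hsum : ∑ t, deg G (ψ t) = deg G (ψ none) + (∑ i, deg G (ψ (some (i, none)))
            + ∑ i, ∑ j, deg G (ψ (some (i, some j)))) := by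
          rw [Fintype.sum_option, Fintype.sum_prod_type]
          simp_rw [Fintype.sum_option]
          rw [Finset.sum_add_distrib]
        have h0 : deg G (ψ none) ≤ n ^ 2 := deg_le G hG _
        have h0' : 4 * r * deg G (ψ none) ≤ 4 * (r * n ^ 2) := by
          calc 4 * r * deg G (ψ none) ≤ 4 * r * n ^ 2 := Nat.mul_le_mul_left _ h0
            _ = _ := by ring
        rw [hsum, mul_add, mul_add]
        have h5 : 2 * (4 * r * ∑ i, deg G (ψ (some (i, none)))) ≤ e := by
          calc 2 * (4 * r * ∑ i, deg G (ψ (some (i, none))))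
              = 8 * r * ∑ i, deg G (ψ (some (i, none))) := by ring
            _ ≤ e := hb2
        have h6 : 2 * (4 * r * ∑ i, ∑ j, deg G (ψ (some (i, some j)))) ≤ e := by
          calc 2 * (4 * r * ∑ i, ∑ j, deg G (ψ (some (i, some j))))
              = 8 * r * ∑ i, ∑ j, deg G (ψ (some (i, some j))) := by ring
            _ ≤ e := hx2
        omega
      refine ⟨Fin.cons ψ φ, ?_, ?_, ?_, ?_⟩
      · intro ρ
        induction ρ using Fin.cases with
        | zero => exact hψ1
        | succ ρ => exact hφ1 ρ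
      · have hdis : ∀ ρ t t', ψ t ≠ φ ρ t' := by
          intro ρ t t' h
          apply hψS t
          rw [h, hS]
          exact Finset.mem_image.2 ⟨(ρ, t'), Finset.mem_univ _, rfl⟩
        intro ρ ρ' hne t t'
        induction ρ using Fin.cases with
        | zero =>
          induction ρ' using Fin.cases with
          | zero => exact (hne rfl).elim
          | succ ρ' => simpa using hdis ρ' t t'
        | succ ρ =>
          induction ρ' using Fin.cases with
          | zero => simpa using (hdis ρ t' t).symm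
          | succ ρ' =>
            simp only [Fin.cons_succ]
            exact hφ2 ρ ρ' (fun h => hne (by rw [h])) t t'
      · intro ρ i j
        induction ρ using Fin.cases with
        | zero => exact (Finset.mem_filter.1 (hψ2 i j)).1
        | succ ρ => exact hφ3 ρ i j
      · intro ρ
        induction ρ using Fin.cases with
        | zero => exact hψdeg
        | succ ρ => exact hφ4 ρ
  obtain ⟨φ, hφ1, hφ2, hφ3, -⟩ := key r le_rfl
  refine ⟨fun p => φ p.1 p.2, ?_, img_BK_subset G φ hφ3⟩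
  rintro ⟨ρ, t⟩ ⟨ρ', t'⟩ h
  by_cases hρ : ρ = ρ'
  · subst hρ
    have := hφ1 ρ h
    simp only at this
    rw [this]
  · exact (hφ2 ρ ρ' hρ t t' h).elim

theorem common_star {k n e : ℕ} (hk : 0 < k) (hn : 0 < n)
    (H : Fin k → Finset (Finset (Fin n))) (hH : ∀ i, IsRGraph 3 (H i))
    (hc : ∀ i, (H i).card = e) (he : 1 ≤ e) :
    ∃ s : ℕ, 1 ≤ s ∧ Common H s ∧ Real.sqrt ((e : ℝ) / n) ≤ 4 * s := by
  have hn' : (0 : ℝ) < n := by exact_mod_cast hn
  by_cases h16 : (e : ℝ) ≤ 16 * n
  · refine ⟨1, le_rfl, common_one hk H hH e he hc, ?_⟩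
    rw [Real.sqrt_le_left (by norm_num), div_le_iff₀ hn']
    push_cast
    linarith
  · push Not at h16
    set y := Real.sqrt ((e : ℝ) / (4 * n)) with hy
    have hy2 : y ^ 2 = (e : ℝ) / (4 * n) := by
      rw [hy, Real.sq_sqrt (by positivity)]
    have hy2' : 4 * n * y ^ 2 = e := by
      rw [hy2]; field_simp
    have hyge : 2 ≤ y := by
      rw [hy]
      apply Real.le_sqrt_of_sq_le
      rw [le_div_iff₀ (by positivity)]
      linarith
    set q := ⌈y⌉₊ - 1 with hq
    have hc1 : 1 ≤ ⌈y⌉₊ := by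
      rw [Nat.one_le_ceil_iff]; linarith
    have hq1 : (q : ℝ) = ⌈y⌉₊ - 1 := by
      rw [hq]; push_cast [Nat.cast_sub hc1]; ring
    have hq2 : (q : ℝ) < y := by
      rw [hq1]
      have := Nat.ceil_lt_add_one (show (0 : ℝ) ≤ y by linarith)
      linarith
    have hq3 : y / 2 ≤ q := by
      rw [hq1]
      have := Nat.le_ceil y
      linarith
    have hq4 : n * (2 * q) ^ 2 < e := by
      have : (n : ℝ) * (2 * q) ^ 2 < e := by
        rw [← hy2']
        have h1 : (q : ℝ) ^ 2 < y ^ 2 := by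
          apply pow_lt_pow_left₀ hq2 (Nat.cast_nonneg q) (by norm_num)
        nlinarith
      exact_mod_cast this
    have hcom : Common H (BK 1 q 1).card := common_of_emb hk _ H (fun i =>
      exists_star (H i) (hH i) q (by rw [hc i]; exact hq4))
    rw [card_BK] at hcom
    have hq0 : 1 ≤ q := by
      have : (0 : ℝ) < q := by linarith
      exact_mod_cast this
    refine ⟨1 * (q * 1), by omega, hcom, ?_⟩
    have h5 : Real.sqrt ((e : ℝ) / n) = 2 * y := by
      rw [Real.sqrt_eq_iff_mul_self_eq (by positivity) (by positivity)]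
      have : (2 * y) * (2 * y) = 4 * y ^ 2 := by ring
      rw [this, hy2]
      field_simp
    rw [h5]
    push_cast
    linarith

theorem common_rand {k n e : ℕ} (hk : 0 < k)
    (H : Fin k → Finset (Finset (Fin n))) (hH : ∀ i, IsRGraph 3 (H i))
    (hc : ∀ i, (H i).card = e) (he : 1 ≤ e) :
    ∃ s : ℕ, 1 ≤ s ∧ Common H s ∧ (e : ℝ) ^ k ≤ s * ((n : ℝ) ^ 3) ^ (k - 1) := by
  obtain ⟨s, h1, h2⟩ := common_overlap hk H hH hc
  refine ⟨s, ?_, h1, ?_⟩
  · by_contra hcon
    have : s = 0 := by omega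
    subst this
    have : 0 < e ^ k := Nat.pow_pos he
    omega
  · have h3 : n.choose 3 ≤ n ^ 3 := Nat.choose_le_pow n 3
    have h4 : e ^ k ≤ s * (n ^ 3) ^ (k - 1) :=
      le_trans h2 (Nat.mul_le_mul_left _ (Nat.pow_le_pow_left h3 _))
    exact_mod_cast h4

theorem half_le_floor {y : ℝ} (hy : 1 ≤ y) : y / 2 ≤ ⌊y⌋₊ := by
  have h1 := Nat.lt_floor_add_one y
  have h2 : (1 : ℝ) ≤ ⌊y⌋₊ := by
    have : 1 ≤ ⌊y⌋₊ := by
      rw [Nat.one_le_floor_iff]; exact hy
    exact_mod_cast this
  linarith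

theorem common_books {k n e : ℕ} (hk : 0 < k)
    (H : Fin k → Finset (Finset (Fin n))) (hH : ∀ i, IsRGraph 3 (H i))
    (hc : ∀ i, (H i).card = e) (B t : ℝ) (hB : 10 ≤ B) (ht : 10 ≤ t)
    (hn : (n : ℝ) = B ^ 6 * t) (he : (e : ℝ) = B ^ 12 * t ^ 3) :
    ∃ s : ℕ, 1 ≤ s ∧ Common H s ∧ min t B * B ^ 3 * t ≤ 8000 * s := by
  have hB3 : (1000 : ℝ) ≤ B ^ 3 := by
    calc (1000 : ℝ) = 10 ^ 3 := by norm_num
      _ ≤ B ^ 3 := by gcongr
  set r := ⌊min t B / 10⌋₊ with hr
  set q := ⌊B ^ 3 / 10⌋₊ with hq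
  set g := ⌊t / 10⌋₊ with hg
  have hr1 : (r : ℝ) ≤ min t B / 10 := Nat.floor_le (by positivity)
  have hrt : (r : ℝ) ≤ t / 10 := le_trans hr1 (by gcongr; exact min_le_left _ _)
  have hrB : (r : ℝ) ≤ B / 10 := le_trans hr1 (by gcongr; exact min_le_right _ _)
  have hq1 : (q : ℝ) ≤ B ^ 3 / 10 := Nat.floor_le (by positivity)
  have hg1 : (g : ℝ) ≤ t / 10 := Nat.floor_le (by positivity)
  have hmin : 10 ≤ min t B := le_min ht hB
  have hr2 : min t B / 10 / 2 ≤ r := half_le_floor (by linarith)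
  have hq2 : B ^ 3 / 10 / 2 ≤ q := half_le_floor (by linarith)
  have hg2 : t / 10 / 2 ≤ g := half_le_floor (by linarith)
  have hr0 : 0 < r := by
    have : (0 : ℝ) < r := by linarith
    exact_mod_cast this
  have hq0 : 0 < q := by
    have : (0 : ℝ) < q := by linarith
    exact_mod_cast this
  have hg0 : 0 < g := by
    have : (0 : ℝ) < g := by linarith
    exact_mod_cast this
  have hg3 : (g : ℝ) + 1 ≤ t / 5 := by linarith
  have h1 : 4 * (r * n ^ 2) ≤ e := by
    have : (4 : ℝ) * (r * n ^ 2) ≤ e := by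
      rw [hn, he]
      calc (4 : ℝ) * (r * (B ^ 6 * t) ^ 2) ≤ 4 * (t / 10 * (B ^ 6 * t) ^ 2) := by gcongr
        _ = 0.4 * (B ^ 12 * t ^ 3) := by ring
        _ ≤ 1 * (B ^ 12 * t ^ 3) := by gcongr; norm_num
        _ = _ := one_mul _
    exact_mod_cast this
  have h2 : 2 * bnd n (24 * (r * q * g)) (24 * (r * q)) q g < e := by
    have hrqg : (24 * (r * q * g) : ℝ) ≤ 0.024 * (B ^ 4 * t) := by
      calc (24 * (r * q * g) : ℝ) ≤ 24 * (B / 10 * (B ^ 3 / 10) * (t / 10)) := by gcongr
        _ = 0.024 * (B ^ 4 * t) := by ring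
    have hrq : (24 * (r * q) : ℝ) ≤ 0.24 * (t * B ^ 3) := by
      calc (24 * (r * q) : ℝ) ≤ 24 * (t / 10 * (B ^ 3 / 10)) := by gcongr
        _ = 0.24 * (t * B ^ 3) := by ring
    have hD : (q * (g + 1) : ℝ) ≤ B ^ 3 * t / 50 := by
      calc (q * (g + 1) : ℝ) ≤ B ^ 3 / 10 * (t / 5) := by gcongr
        _ = B ^ 3 * t / 50 := by ring
    have hB1 : (1 : ℝ) ≤ B := by linarith
    have ht1 : (1 : ℝ) ≤ t := by linarith
    have t1 : (24 * (r * q * g) : ℝ) ^ 3 ≤ 0.0001 * (B ^ 12 * t ^ 3) := by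
      calc (24 * (r * q * g) : ℝ) ^ 3 ≤ (0.024 * (B ^ 4 * t)) ^ 3 := by gcongr
        _ = 0.000013824 * (B ^ 12 * t ^ 3) := by ring
        _ ≤ 0.0001 * (B ^ 12 * t ^ 3) := by gcongr; norm_num
    have t2 : (24 * (r * q) : ℝ) ^ 2 * n ≤ 0.06 * (B ^ 12 * t ^ 3) := by
      rw [hn]
      calc (24 * (r * q) : ℝ) ^ 2 * (B ^ 6 * t) ≤ (0.24 * (t * B ^ 3)) ^ 2 * (B ^ 6 * t) := by
            gcongr
        _ = 0.0576 * (B ^ 12 * t ^ 3) := by ring
        _ ≤ 0.06 * (B ^ 12 * t ^ 3) := by gcongr; norm_num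
    have t3 : (24 * (r * q * g) : ℝ) * (q * n) ≤ 0.01 * (B ^ 12 * t ^ 3) := by
      rw [hn]
      calc (24 * (r * q * g) : ℝ) * (q * (B ^ 6 * t))
          ≤ 24 * (t / 10 * (B ^ 3 / 10) * (t / 10)) * (B ^ 3 / 10 * (B ^ 6 * t)) := by gcongr
        _ = 0.0024 * (B ^ 12 * t ^ 3) := by ring
        _ ≤ 0.01 * (B ^ 12 * t ^ 3) := by gcongr; norm_num
    have t4 : (24 * (r * q * g) : ℝ) * ((q * (g + 1)) ^ 2 + 24 * (r * q * g) * g
        + 24 * (r * q * g) * (q * (g + 1))) ≤ 0.01 * (B ^ 12 * t ^ 3) := by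
      calc (24 * (r * q * g) : ℝ) * ((q * (g + 1)) ^ 2 + 24 * (r * q * g) * g
            + 24 * (r * q * g) * (q * (g + 1)))
          ≤ 0.024 * (B ^ 4 * t) * ((B ^ 3 * t / 50) ^ 2 + 0.024 * (B ^ 4 * t) * (t / 10)
            + 0.024 * (B ^ 4 * t) * (B ^ 3 * t / 50)) := by gcongr
        _ = 0.0000096 * (B ^ 10 * t ^ 3) + 0.0000576 * (B ^ 8 * t ^ 3)
            + 0.00001152 * (B ^ 11 * t ^ 3) := by ring
        _ ≤ 0.0000096 * (B ^ 12 * t ^ 3) + 0.0000576 * (B ^ 12 * t ^ 3)
            + 0.00001152 * (B ^ 12 * t ^ 3) := by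
            have e1 : B ^ 10 ≤ B ^ 12 := pow_le_pow_right₀ hB1 (by norm_num)
            have e2 : B ^ 8 ≤ B ^ 12 := pow_le_pow_right₀ hB1 (by norm_num)
            have e3 : B ^ 11 ≤ B ^ 12 := pow_le_pow_right₀ hB1 (by norm_num)
            gcongr
        _ = 0.00007872 * (B ^ 12 * t ^ 3) := by ring
        _ ≤ 0.01 * (B ^ 12 * t ^ 3) := by gcongr; norm_num
    have t5 : (n : ℝ) * (2 * (q * (g + 1)) ^ 2 + n * g) ≤ 0.11 * (B ^ 12 * t ^ 3) := by
      rw [hn]
      calc (B ^ 6 * t) * (2 * (q * (g + 1) : ℝ) ^ 2 + (B ^ 6 * t) * g)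
          ≤ (B ^ 6 * t) * (2 * (B ^ 3 * t / 50) ^ 2 + (B ^ 6 * t) * (t / 10)) := by gcongr
        _ = 0.1008 * (B ^ 12 * t ^ 3) := by ring
        _ ≤ 0.11 * (B ^ 12 * t ^ 3) := by gcongr; norm_num
    have t6 : (n : ℝ) * q ^ 2 ≤ 0.01 * (B ^ 12 * t ^ 3) := by
      rw [hn]
      calc (B ^ 6 * t) * (q : ℝ) ^ 2 ≤ (B ^ 6 * t) * (B ^ 3 / 10) ^ 2 := by gcongr
        _ = 0.01 * (B ^ 12 * t ^ 1) := by ring
        _ ≤ 0.01 * (B ^ 12 * t ^ 3) := by
            have e1 : t ^ 1 ≤ t ^ 3 := pow_le_pow_right₀ ht1 (by norm_num)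
            gcongr
    have hpos : (0 : ℝ) < B ^ 12 * t ^ 3 := by positivity
    have : ((2 * bnd n (24 * (r * q * g)) (24 * (r * q)) q g : ℕ) : ℝ) < e := by
      unfold bnd
      push_cast
      rw [he]
      linarith
    exact_mod_cast this
  have hcom : Common H (BK r q g).card := common_of_emb hk _ H (fun i =>
      exists_books (H i) (hH i) r q g hr0 hq0 hg0 (by rw [hc i]; exact h1)
        (by rw [hc i]; exact h2))
  rw [card_BK] at hcom
  refine ⟨r * (q * g), Nat.mul_pos hr0 (Nat.mul_pos hq0 hg0), hcom, ?_⟩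
  push_cast
  calc min t B * B ^ 3 * t
      = 8000 * ((min t B / 10 / 2) * ((B ^ 3 / 10 / 2) * (t / 10 / 2))) := by ring
    _ ≤ 8000 * ((r : ℝ) * ((q : ℝ) * (g : ℝ))) := by gcongr

theorem inc1 {x a N : ℝ} (hN : 0 < N) (ha : 0 ≤ a) (hax : a ≤ x) (hx : 0 < x)
    (h : Real.sqrt (x / N) ≤ 4 * (x - a)) :
    1 / 8 ≤ Real.sqrt N * Real.sqrt x - Real.sqrt N * Real.sqrt a := by
  have hsN : 0 < Real.sqrt N := Real.sqrt_pos.2 hN
  have hsx : 0 < Real.sqrt x := Real.sqrt_pos.2 hx
  have hsa : 0 ≤ Real.sqrt a := Real.sqrt_nonneg a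
  have hsax : Real.sqrt a ≤ Real.sqrt x := Real.sqrt_le_sqrt hax
  rw [Real.sqrt_div hx.le, div_le_iff₀ hsN] at h
  have h1 : x - a = (Real.sqrt x - Real.sqrt a) * (Real.sqrt x + Real.sqrt a) := by
    have e1 := Real.mul_self_sqrt hx.le
    have e2 := Real.mul_self_sqrt ha
    nlinarith
  rw [h1] at h
  -- √x ≤ 4 (√x - √a)(√x+√a) √N ≤ 8 (√x-√a) √x √N
  have h2 : Real.sqrt x ≤ 8 * ((Real.sqrt x - Real.sqrt a) * Real.sqrt N) * Real.sqrt x := by
    calc Real.sqrt x ≤ 4 * ((Real.sqrt x - Real.sqrt a) * (Real.sqrt x + Real.sqrt a))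
          * Real.sqrt N := h
      _ ≤ 4 * ((Real.sqrt x - Real.sqrt a) * (Real.sqrt x + Real.sqrt x)) * Real.sqrt N := by
          have : 0 ≤ Real.sqrt x - Real.sqrt a := by linarith
          gcongr
      _ = 8 * ((Real.sqrt x - Real.sqrt a) * Real.sqrt N) * Real.sqrt x := by ring
  have h3 : 1 ≤ 8 * ((Real.sqrt x - Real.sqrt a) * Real.sqrt N) := by
    have : 1 * Real.sqrt x ≤ 8 * ((Real.sqrt x - Real.sqrt a) * Real.sqrt N) * Real.sqrt x := by
      rw [one_mul]; exact h2
    exact le_of_mul_le_mul_right this hsx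
  linarith

theorem inv_sqrt_sub {x m : ℝ} (hm : 0 < m) (hmx : m ≤ x) :
    (x - m) / (2 * (x * Real.sqrt x)) ≤ 1 / Real.sqrt m - 1 / Real.sqrt x := by
  have hx : 0 < x := lt_of_lt_of_le hm hmx
  have hsx : 0 < Real.sqrt x := Real.sqrt_pos.2 hx
  have hsm : 0 < Real.sqrt m := Real.sqrt_pos.2 hm
  have hsmx : Real.sqrt m ≤ Real.sqrt x := Real.sqrt_le_sqrt hmx
  have e1 := Real.mul_self_sqrt hx.le
  have e2 := Real.mul_self_sqrt hm.le
  set u := Real.sqrt x with hu
  set v := Real.sqrt m with hv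
  rw [← e1, ← e2]
  have h1 : 1 / v - 1 / u = (u - v) / (v * u) := by field_simp
  rw [h1, div_le_div_iff₀ (by positivity) (by positivity)]
  have h2 : (u * u - v * v) * (v * u) = (u - v) * ((u + v) * v * u) := by ring
  rw [h2]
  have h3 : 0 ≤ u - v := by linarith
  apply mul_le_mul_of_nonneg_left _ h3
  calc (u + v) * v * u ≤ (u + u) * u * u := by gcongr
    _ = 2 * (u * u * u) := by ring

theorem inc2 {x m N B t : ℝ} (hm : 0 < m) (hmx : m ≤ x) (hB : 0 < B) (ht : 0 < t)
    (hN : N = B ^ 6 * t) (hx : x = B ^ 12 * t ^ 3)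
    (h : t ^ 2 * B ^ 3 ≤ 10000 * (x - m)) :
    1 / 20000 ≤ N ^ 2 * Real.sqrt N / Real.sqrt m - N ^ 2 * Real.sqrt N / Real.sqrt x := by
  have h1 := inv_sqrt_sub hm hmx
  have hst : 0 < Real.sqrt t := Real.sqrt_pos.2 ht
  have ht2 : Real.sqrt t * Real.sqrt t = t := Real.mul_self_sqrt ht.le
  have hsN : Real.sqrt N = B ^ 3 * Real.sqrt t := by
    rw [hN, Real.sqrt_mul (by positivity), show B ^ 6 = (B ^ 3) ^ 2 by ring,
      Real.sqrt_sq (by positivity)]
  have hsx : Real.sqrt x = B ^ 6 * (t * Real.sqrt t) := by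
    rw [hx, Real.sqrt_mul (by positivity), show B ^ 12 = (B ^ 6) ^ 2 by ring,
      Real.sqrt_sq (by positivity), show t ^ 3 = t ^ 2 * t by ring,
      Real.sqrt_mul (by positivity), Real.sqrt_sq ht.le]
  have h2 : N ^ 2 * Real.sqrt N * ((x - m) / (2 * (x * Real.sqrt x)))
      ≤ N ^ 2 * Real.sqrt N * (1 / Real.sqrt m - 1 / Real.sqrt x) := by
    apply mul_le_mul_of_nonneg_left h1
    rw [hN]; positivity
  have h3 : N ^ 2 * Real.sqrt N * ((x - m) / (2 * (x * Real.sqrt x)))
      = (x - m) / (2 * (t ^ 2 * B ^ 3)) := by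
    rw [hsN, hsx]
    have hx' : x * (B ^ 6 * (t * Real.sqrt t)) = B ^ 18 * t ^ 4 * Real.sqrt t := by
      rw [hx]; ring
    rw [hx', hN]
    field_simp
  rw [h3] at h2
  have h4 : 1 / 20000 ≤ (x - m) / (2 * (t ^ 2 * B ^ 3)) := by
    rw [div_le_div_iff₀ (by norm_num) (by positivity)]
    linarith
  calc (1 : ℝ) / 20000 ≤ _ := h4
    _ ≤ _ := h2
    _ = _ := by ring

theorem inc3 {x a B t : ℝ} (ha : 0 ≤ a) (hB : 0 < B) (ht : 0 < t)
    (hx : x = B ^ 12 * t ^ 3)
    (h : B * B ^ 3 * t ≤ 8000 * (x - a)) :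
    1 / 20000 ≤ x ^ ((2 : ℝ) / 3) - a ^ ((2 : ℝ) / 3) := by
  have hxpos : 0 < x := by rw [hx]; positivity
  -- Bernoulli
  have h1 : (a / x) ^ ((2 : ℝ) / 3) ≤ 1 + (2 / 3) * (a / x - 1) := by
    have := _root_.rpow_one_add_le_one_add_mul_self (s := a / x - 1) (p := 2 / 3)
      (by have : 0 ≤ a / x := by positivity
          linarith) (by norm_num) (by norm_num)
    simpa using this
  have h2 : a ^ ((2 : ℝ) / 3) = x ^ ((2 : ℝ) / 3) * (a / x) ^ ((2 : ℝ) / 3) := by
    rw [Real.div_rpow ha hxpos.le]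
    field_simp
  have h3 : x ^ ((2 : ℝ) / 3) = (B ^ 4 * t) ^ 2 := by
    have : x = (B ^ 4 * t) ^ (3 : ℕ) := by rw [hx]; ring
    rw [this, ← Real.rpow_natCast, ← Real.rpow_mul (by positivity), ← Real.rpow_natCast]
    norm_num
  rw [h2]
  have h4 : x ^ ((2 : ℝ) / 3) - x ^ ((2 : ℝ) / 3) * (a / x) ^ ((2 : ℝ) / 3)
      ≥ x ^ ((2 : ℝ) / 3) * (2 / 3 * (1 - a / x)) := by
    have : x ^ ((2 : ℝ) / 3) * (a / x) ^ ((2 : ℝ) / 3)
        ≤ x ^ ((2 : ℝ) / 3) * (1 + (2 / 3) * (a / x - 1)) :=
      mul_le_mul_of_nonneg_left h1 (by positivity)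
    linarith
  refine le_trans ?_ h4
  rw [h3]
  have h5 : (B ^ 4 * t) ^ 2 * (2 / 3 * (1 - a / x)) = (2 / 3) * ((x - a) / (B ^ 4 * t)) := by
    have : (1 - a / x) = (x - a) / x := by field_simp
    rw [this]
    have hx3 : x = (B ^ 4 * t) ^ 3 := by rw [hx]; ring
    have hne : (B ^ 4 * t) ≠ 0 := by positivity
    have : (x - a) / x = (x - a) / (B ^ 4 * t) ^ 3 := by
      congr 1
    rw [this]
    field_simp
  rw [h5]
  have h6 : 1 / 8000 ≤ (x - a) / (B ^ 4 * t) := by
    rw [div_le_div_iff₀ (by norm_num) (by positivity)]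
    have : B ^ 4 * t = B * B ^ 3 * t := by ring
    linarith
  linarith

theorem inc4 {x m M : ℝ} (p : ℕ) (hm : 0 < m) (hmx : m ≤ x) (hM : 0 ≤ M)
    (h : x ^ (p + 2) ≤ 2 * (x - m) * M) :
    1 / 2 ≤ M / m ^ (p + 1) - M / x ^ (p + 1) := by
  have hx : 0 < x := lt_of_lt_of_le hm hmx
  have h1 : (x - m) / x ^ (p + 2) ≤ 1 / m ^ (p + 1) - 1 / x ^ (p + 1) := by
    have h2 : 1 / (m * x ^ p) ≤ 1 / m ^ (p + 1) := by
      apply one_div_le_one_div_of_le (by positivity)
      rw [pow_succ, mul_comm]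
      gcongr
    have h3 : (x - m) / x ^ (p + 2) ≤ 1 / (m * x ^ p) - 1 / x ^ (p + 1) := by
      have h4 : 1 / (m * x ^ p) - 1 / x ^ (p + 1) = (x - m) / (m * x ^ (p + 1)) := by
        rw [pow_succ]
        field_simp
      rw [h4]
      apply div_le_div_of_nonneg_left (by linarith) (by positivity)
      calc m * x ^ (p + 1) ≤ x * x ^ (p + 1) := by gcongr
        _ = x ^ (p + 2) := by ring
    linarith
  have h5 : M * ((x - m) / x ^ (p + 2)) ≤ M * (1 / m ^ (p + 1) - 1 / x ^ (p + 1)) :=
    mul_le_mul_of_nonneg_left h1 hM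
  have h6 : 1 / 2 ≤ M * ((x - m) / x ^ (p + 2)) := by
    rw [← mul_div_assoc, div_le_div_iff₀ (by norm_num) (by positivity)]
    linarith
  calc (1 : ℝ) / 2 ≤ _ := h6
    _ ≤ _ := h5
    _ = _ := by ring

theorem mono1 {N a x M : ℝ} (h : a ≤ x) :
    Real.sqrt N * Real.sqrt (min a M) ≤ Real.sqrt N * Real.sqrt (min x M) := by
  gcongr

theorem mono2 {N a x M : ℝ} (hM : 0 < M) (h : a ≤ x) :
    N ^ 2 * Real.sqrt N / Real.sqrt (max x M) ≤ N ^ 2 * Real.sqrt N / Real.sqrt (max a M) := by
  apply div_le_div_of_nonneg_left (by positivity)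
  · apply Real.sqrt_pos.2
    exact lt_of_lt_of_le hM (le_max_right _ _)
  · apply Real.sqrt_le_sqrt
    exact max_le_max h le_rfl

theorem mono3 {a x M : ℝ} (ha : 0 ≤ a) (hM : 0 ≤ M) (h : a ≤ x) :
    (min a M) ^ ((2 : ℝ) / 3) ≤ (min x M) ^ ((2 : ℝ) / 3) := by
  apply Real.rpow_le_rpow (le_min ha hM) (min_le_min h le_rfl) (by norm_num)

theorem mono4 {a x M Q : ℝ} (p : ℕ) (hM : 0 < M) (hQ : 0 ≤ Q) (h : a ≤ x) :
    Q / (max x M) ^ p ≤ Q / (max a M) ^ p := by
  have h1 : 0 < max a M := lt_of_lt_of_le hM (le_max_right _ _)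
  apply div_le_div_of_nonneg_left hQ (by positivity)
  have : max a M ≤ max x M := max_le_max h le_rfl
  gcongr

/-- The potential. -/
noncomputable def Pot (N X : ℝ) (p : ℕ) (x : ℝ) : ℝ :=
  20000 * (Real.sqrt N * Real.sqrt (min x (10 * N ^ 2))
    - N ^ 2 * Real.sqrt N / Real.sqrt (max x (N ^ 2))
    + (min x X) ^ ((2 : ℝ) / 3)
    - (N ^ 3) ^ (p + 1) / (max x (X / 2)) ^ (p + 1))

theorem pot_step {n e p : ℕ} (hn : 1 ≤ n) (X : ℝ) (hX : 0 < X) (hXN : 10 ^ 6 * X ≤ (n : ℝ) ^ 3)
    (H : Fin (p + 2) → Finset (Finset (Fin n))) (hH : ∀ i, IsRGraph 3 (H i))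
    (hc : ∀ i, (H i).card = e) (he : 1 ≤ e) :
    ∃ s : ℕ, 1 ≤ s ∧ Common H s ∧ Pot n X p ((e - s : ℕ) : ℝ) + 1 ≤ Pot n X p (e : ℝ) := by
  have hN : (1 : ℝ) ≤ n := by exact_mod_cast hn
  have hN0 : (0 : ℝ) < n := by linarith
  have hx1 : (1 : ℝ) ≤ e := by exact_mod_cast he
  have hx0 : (0 : ℝ) < e := by linarith
  have hle : ∀ s : ℕ, Common H s → s ≤ e := fun s hs => by
    have := hs.le_card 0
    rwa [hc] at this
  have hk : 0 < p + 2 := by omega
  by_cases c1 : (e : ℝ) ≤ 10 * (n : ℝ) ^ 2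
  · obtain ⟨s, hs1, hs2, hs3⟩ := common_star hk (by omega) H hH hc he
    refine ⟨s, hs1, hs2, ?_⟩
    have hse := hle s hs2
    have hcast : ((e - s : ℕ) : ℝ) = (e : ℝ) - s := by rw [Nat.cast_sub hse]
    have hsr : (0 : ℝ) ≤ s := Nat.cast_nonneg s
    rw [hcast]
    have ha : (0 : ℝ) ≤ (e : ℝ) - s := by
      have : (s : ℝ) ≤ e := by exact_mod_cast hse
      linarith
    have hax : (e : ℝ) - s ≤ e := by linarith
    have i1 := inc1 hN0 ha hax hx0 (by simpa using hs3)
    have i2 := mono2 (N := n) (M := (n : ℝ) ^ 2) (by positivity) hax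
    have i3 := mono3 (M := X) ha hX.le hax
    have i4 := mono4 (M := X / 2) (Q := ((n : ℝ) ^ 3) ^ (p + 1)) (p + 1) (by positivity)
      (by positivity) hax
    unfold Pot
    rw [min_eq_left c1, min_eq_left (show (e : ℝ) - s ≤ 10 * (n : ℝ) ^ 2 by linarith)]
    linarith
  · push Not at c1
    by_cases c2 : (e : ℝ) ≤ X
    · -- star-books
      set t : ℝ := (e : ℝ) / (n : ℝ) ^ 2 with ht
      have ht10 : 10 ≤ t := by
        rw [ht, le_div_iff₀ (by positivity)]; exact c1.le
      set y : ℝ := (n : ℝ) ^ 3 / e with hy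
      have hy6 : (10 : ℝ) ^ 6 ≤ y := by
        rw [hy, le_div_iff₀ hx0]
        calc (10 : ℝ) ^ 6 * e ≤ 10 ^ 6 * X := by gcongr
          _ ≤ _ := hXN
      set B : ℝ := y ^ ((1 : ℝ) / 6) with hB
      have hB6 : B ^ 6 = y := by
        rw [hB, ← Real.rpow_natCast, ← Real.rpow_mul (by positivity)]
        norm_num
      have hB0 : 0 < B := by rw [hB]; positivity
      have hB10 : 10 ≤ B := by
        by_contra hcon
        push Not at hcon
        have : B ^ 6 < 10 ^ 6 := pow_lt_pow_left₀ hcon hB0.le (by norm_num)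
        rw [hB6] at this
        linarith
      have hnB : (n : ℝ) = B ^ 6 * t := by
        rw [hB6, hy, ht]
        field_simp
      have heB : (e : ℝ) = B ^ 12 * t ^ 3 := by
        have : B ^ 12 = y ^ 2 := by rw [← hB6]; ring
        rw [this, hy, ht]
        field_simp
      obtain ⟨s, hs1, hs2, hs3⟩ := common_books hk H hH hc B t hB10 ht10 hnB heB
      refine ⟨s, hs1, hs2, ?_⟩
      have hse := hle s hs2
      have hcast : ((e - s : ℕ) : ℝ) = (e : ℝ) - s := by rw [Nat.cast_sub hse]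
      have hsr : (0 : ℝ) ≤ s := Nat.cast_nonneg s
      rw [hcast]
      have hse' : (s : ℝ) ≤ e := by exact_mod_cast hse
      have ha : (0 : ℝ) ≤ (e : ℝ) - s := by linarith
      have hax : (e : ℝ) - s ≤ e := by linarith
      have i1 := mono1 (N := n) (M := 10 * (n : ℝ) ^ 2) hax
      have i2 := mono2 (N := n) (M := (n : ℝ) ^ 2) (by positivity) hax
      have i3 := mono3 (M := X) ha hX.le hax
      have i4 := mono4 (M := X / 2) (Q := ((n : ℝ) ^ 3) ^ (p + 1)) (p + 1) (by positivity)
        (by positivity) hax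
      rcases le_total t B with htB | htB
      · rw [min_eq_left htB] at hs3
        have hm : (e : ℝ) - max ((e : ℝ) - s) ((n : ℝ) ^ 2) ≥ 9 / 10 * s := by
          have h1 : max ((e : ℝ) - s) ((n : ℝ) ^ 2) ≤ e - 9 / 10 * s := by
            apply max_le
            · linarith
            · linarith
          linarith
        have i2' := inc2 (x := e) (m := max ((e : ℝ) - s) ((n : ℝ) ^ 2)) (N := n) (B := B) (t := t)
          (lt_of_lt_of_le (by positivity) (le_max_right _ _))
          (by apply max_le hax; nlinarith)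
          hB0 (by linarith) hnB heB (by
            have : t ^ 2 * B ^ 3 = t * B ^ 3 * t := by ring
            rw [this]
            linarith)
        unfold Pot
        rw [max_eq_left (show (n : ℝ) ^ 2 ≤ e by nlinarith)]
        linarith
      · rw [min_eq_right htB] at hs3
        have i3' := inc3 (x := e) (a := (e : ℝ) - s) ha hB0 (by linarith) heB (by
          have : (e : ℝ) - (e - s) = s := by ring
          rw [this]
          exact hs3)
        unfold Pot
        rw [min_eq_left c2, min_eq_left (show (e : ℝ) - s ≤ X by linarith)]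
        linarith
    · push Not at c2
      obtain ⟨s, hs1, hs2, hs3⟩ := common_rand hk H hH hc he
      refine ⟨s, hs1, hs2, ?_⟩
      have hse := hle s hs2
      have hcast : ((e - s : ℕ) : ℝ) = (e : ℝ) - s := by rw [Nat.cast_sub hse]
      have hsr : (0 : ℝ) ≤ s := Nat.cast_nonneg s
      rw [hcast]
      have hse' : (s : ℝ) ≤ e := by exact_mod_cast hse
      have ha : (0 : ℝ) ≤ (e : ℝ) - s := by linarith
      have hax : (e : ℝ) - s ≤ e := by linarith
      have i1 := mono1 (N := n) (M := 10 * (n : ℝ) ^ 2) hax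
      have i2 := mono2 (N := n) (M := (n : ℝ) ^ 2) (by positivity) hax
      have i3 := mono3 (M := X) ha hX.le hax
      have i4 := inc4 (x := e) (m := max ((e : ℝ) - s) (X / 2)) (M := ((n : ℝ) ^ 3) ^ (p + 1)) p
        (lt_of_lt_of_le (by positivity) (le_max_right _ _))
        (by apply max_le hax; linarith) (by positivity) (by
          refine le_trans hs3 ?_
          have h1 : max ((e : ℝ) - s) (X / 2) ≤ e - s / 2 := by
            apply max_le
            · linarith
            · linarith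
          have h2 : (s : ℝ) ≤ 2 * (e - max ((e : ℝ) - s) (X / 2)) := by linarith
          have h3 : p + 2 - 1 = p + 1 := by omega
          rw [h3]
          gcongr)
      unfold Pot
      rw [max_eq_left (show X / 2 ≤ (e : ℝ) by linarith)]
      linarith

theorem upper_core {n p : ℕ} (hn : 1 ≤ n) (X : ℝ) (hX : 0 < X)
    (hXN : 10 ^ 6 * X ≤ (n : ℝ) ^ 3) :
    (U (p + 2) n 3 : ℝ) ≤ 20000 * (5 * ((n : ℝ) * Real.sqrt n) + X ^ ((2 : ℝ) / 3)
      + ((n : ℝ) ^ 3) ^ (p + 1) / (X / 2) ^ (p + 1)) := by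
  have hN : (1 : ℝ) ≤ n := by exact_mod_cast hn
  have hN0 : (0 : ℝ) < n := by linarith
  apply U_le (by omega)
  intro e H hH hc
  obtain ⟨t, ht1, ht2⟩ := greedy (k := p + 2) (n := n) (r := 3) (by omega)
    (fun x => Pot n X p (x : ℝ)) (fun e he H hH hc => pot_step hn X hX hXN H hH hc he) e H hH hc
  refine ⟨t, ht1, le_trans ht2 ?_⟩
  have he0 : (0 : ℝ) ≤ e := Nat.cast_nonneg e
  simp only [Nat.cast_zero]
  unfold Pot
  have b1 : Real.sqrt n * Real.sqrt (min (e : ℝ) (10 * (n : ℝ) ^ 2)) ≤ 4 * (n * Real.sqrt n) := by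
    have : Real.sqrt (min (e : ℝ) (10 * (n : ℝ) ^ 2)) ≤ 4 * n := by
      rw [Real.sqrt_le_left (by positivity)]
      refine le_trans (min_le_right _ _) ?_
      nlinarith
    calc Real.sqrt n * Real.sqrt (min (e : ℝ) (10 * (n : ℝ) ^ 2)) ≤ Real.sqrt n * (4 * n) := by
          gcongr
      _ = 4 * (n * Real.sqrt n) := by ring
  have b1' : 0 ≤ Real.sqrt n * Real.sqrt (min (0 : ℝ) (10 * (n : ℝ) ^ 2)) := by positivity
  have b2 : (n : ℝ) ^ 2 * Real.sqrt n / Real.sqrt (max 0 ((n : ℝ) ^ 2)) = n * Real.sqrt n := by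
    rw [max_eq_right (by positivity), Real.sqrt_sq hN0.le]
    field_simp
  have b2' : 0 ≤ (n : ℝ) ^ 2 * Real.sqrt n / Real.sqrt (max (e : ℝ) ((n : ℝ) ^ 2)) := by
    positivity
  have b3 : (min (e : ℝ) X) ^ ((2 : ℝ) / 3) ≤ X ^ ((2 : ℝ) / 3) := by
    apply Real.rpow_le_rpow (le_min he0 hX.le) (min_le_right _ _) (by norm_num)
  have b3' : 0 ≤ (min (0 : ℝ) X) ^ ((2 : ℝ) / 3) := by
    rw [min_eq_left hX.le]
    positivity
  have b4 : ((n : ℝ) ^ 3) ^ (p + 1) / (max 0 (X / 2)) ^ (p + 1)
      = ((n : ℝ) ^ 3) ^ (p + 1) / (X / 2) ^ (p + 1) := by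
    rw [max_eq_right (by positivity)]
  have b4' : 0 ≤ ((n : ℝ) ^ 3) ^ (p + 1) / (max (e : ℝ) (X / 2)) ^ (p + 1) := by
    positivity
  rw [b2, b4]
  linarith

theorem upper_bound (k : ℕ) (hk : 3 ≤ k) : ∃ C : ℝ, 0 < C ∧ ∀ᶠ n : ℕ in Filter.atTop,
    (U k n 3 : ℝ) ≤ C * (n : ℝ) ^ (2 - 4 / (3 * (k : ℝ) - 1)) := by
  obtain ⟨p, rfl⟩ : ∃ p, k = p + 2 := ⟨k - 2, by omega⟩
  set β : ℝ := 2 - 4 / (3 * ((p + 2 : ℕ) : ℝ) - 1) with hβ
  have hp : (1 : ℝ) ≤ p := by
    have : 1 ≤ p := by omega
    exact_mod_cast this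
  have hden : (0 : ℝ) < 3 * ((p + 2 : ℕ) : ℝ) - 1 := by push_cast; linarith
  have hβ' : β = 6 * (p + 1) / (3 * p + 5) := by
    rw [hβ]
    push_cast at hden ⊢
    have : (3 * ((p : ℝ) + 2) - 1) = 3 * p + 5 := by ring
    rw [this]
    field_simp
    ring
  have hβ32 : 3 / 2 ≤ β := by
    rw [hβ', div_le_div_iff₀ (by norm_num) (by linarith)]
    linarith
  have hgap : 3 - 3 * β / 2 = 6 / (3 * p + 5) := by
    rw [hβ']
    field_simp
    ring
  have hgap0 : 0 < 3 - 3 * β / 2 := by
    rw [hgap]; positivity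
  refine ⟨20000 * (6 + 2 ^ (p + 1)), by positivity, ?_⟩
  have hev : ∀ᶠ n : ℕ in Filter.atTop, (10 : ℝ) ^ 6 ≤ (n : ℝ) ^ (3 - 3 * β / 2) :=
    ((tendsto_rpow_atTop hgap0).comp tendsto_natCast_atTop_atTop).eventually_ge_atTop _
  filter_upwards [hev, Filter.eventually_ge_atTop 1] with n h1 h2
  have hN : (1 : ℝ) ≤ n := by exact_mod_cast h2
  have hN0 : (0 : ℝ) < n := by linarith
  set X : ℝ := (n : ℝ) ^ (3 * β / 2) with hX
  have hX0 : 0 < X := by positivity
  have hXN : 10 ^ 6 * X ≤ (n : ℝ) ^ 3 := by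
    calc 10 ^ 6 * X ≤ (n : ℝ) ^ (3 - 3 * β / 2) * X := by gcongr
      _ = (n : ℝ) ^ 3 := by
        rw [hX, ← Real.rpow_add hN0]
        have : 3 - 3 * β / 2 + 3 * β / 2 = (3 : ℕ) := by push_cast; ring
        rw [this, Real.rpow_natCast]
  have hcore := upper_core (n := n) (p := p) h2 X hX0 hXN
  refine le_trans hcore ?_
  have e1 : (n : ℝ) * Real.sqrt n ≤ (n : ℝ) ^ β := by
    calc (n : ℝ) * Real.sqrt n = (n : ℝ) ^ ((3 : ℝ) / 2) := by
          rw [Real.sqrt_eq_rpow]
          nth_rewrite 1 [← Real.rpow_one (n : ℝ)]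
          rw [← Real.rpow_add hN0]
          norm_num
      _ ≤ (n : ℝ) ^ β := Real.rpow_le_rpow_of_exponent_le hN hβ32
  have e2 : X ^ ((2 : ℝ) / 3) = (n : ℝ) ^ β := by
    rw [hX, ← Real.rpow_mul hN0.le]
    congr 1
    ring
  have e3 : ((n : ℝ) ^ 3) ^ (p + 1) / (X / 2) ^ (p + 1) = 2 ^ (p + 1) * (n : ℝ) ^ β := by
    have h3 : ((n : ℝ) ^ 3) / X = (n : ℝ) ^ (3 - 3 * β / 2) := by
      rw [hX, Real.rpow_sub hN0]
      congr 1
      have : (3 : ℝ) = (3 : ℕ) := by norm_num
      rw [this, Real.rpow_natCast]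
    rw [← div_pow]
    have h4 : (n : ℝ) ^ 3 / (X / 2) = 2 * ((n : ℝ) ^ 3 / X) := by field_simp
    rw [h4, h3, mul_pow, ← Real.rpow_natCast ((n : ℝ) ^ (3 - 3 * β / 2)), ← Real.rpow_mul hN0.le]
    congr 2
    rw [hgap, hβ']
    push_cast
    field_simp
  rw [e2, e3]
  have e4 : 0 ≤ (n : ℝ) ^ β := by positivity
  nlinarith

theorem choose_ineq (N e : ℕ) (heN : e ≤ N) : ∀ T, T ≤ e →
    (N - T).choose (e - T) * N ^ T ≤ N.choose e * e ^ T := by
  intro T
  induction T with
  | zero => intro _; simp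
  | succ T ih =>
    intro hT
    have h1 := ih (by omega)
    obtain ⟨a, ha⟩ : ∃ a, N - T = a + 1 := ⟨N - T - 1, by omega⟩
    obtain ⟨b, hb⟩ : ∃ b, e - T = b + 1 := ⟨e - T - 1, by omega⟩
    have h2 : N - (T + 1) = a := by omega
    have h3 : e - (T + 1) = b := by omega
    rw [h2, h3]
    rw [ha, hb] at h1
    have h4 := Nat.add_one_mul_choose_eq a b
    -- a.choose b * N ≤ (a+1).choose (b+1) * e
    have h5 : a.choose b * N ≤ (a + 1).choose (b + 1) * e := by
      have h6 : (a + 1) * (a.choose b * N) ≤ (a + 1) * ((a + 1).choose (b + 1) * e) := by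
        calc (a + 1) * (a.choose b * N) = ((a + 1) * a.choose b) * N := by ring
          _ = (a + 1).choose (b + 1) * ((b + 1) * N) := by rw [h4]; ring
          _ ≤ (a + 1).choose (b + 1) * ((a + 1) * e) := by
              apply Nat.mul_le_mul_left
              have hN : N = a + 1 + T := by omega
              have he : e = b + 1 + T := by omega
              have hab : b ≤ a := by omega
              rw [hN, he]
              nlinarith [Nat.mul_le_mul_right T hab]
          _ = _ := by ring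
      exact Nat.le_of_mul_le_mul_left h6 (Nat.succ_pos _)
    calc a.choose b * N ^ (T + 1) = (a.choose b * N) * N ^ T := by ring
      _ ≤ ((a + 1).choose (b + 1) * e) * N ^ T := Nat.mul_le_mul_right _ h5
      _ = ((a + 1).choose (b + 1) * N ^ T) * e := by ring
      _ ≤ (N.choose e * e ^ T) * e := Nat.mul_le_mul_right _ h1
      _ = _ := by ring

theorem count_superset {α : Type*} [DecidableEq α] (Ω D : Finset α) (e : ℕ)
    (heN : e ≤ Ω.card) (hD : D ⊆ Ω) :
    ((Finset.powersetCard e Ω).filter (fun G => D ⊆ G)).card * Ω.card ^ D.card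
      ≤ Ω.card.choose e * e ^ D.card := by
  classical
  by_cases hT : D.card ≤ e
  · refine le_trans (Nat.mul_le_mul_right _ ?_) (choose_ineq Ω.card e heN D.card hT)
    have h : (Finset.powersetCard e Ω).filter (fun G => D ⊆ G)
        ⊆ (Finset.powersetCard (e - D.card) (Ω \ D)).image (fun S => S ∪ D) := by
      intro G hG
      rw [Finset.mem_filter, Finset.mem_powersetCard] at hG
      refine Finset.mem_image.2 ⟨G \ D, ?_, ?_⟩
      · rw [Finset.mem_powersetCard]
        refine ⟨Finset.sdiff_subset_sdiff hG.1.1 (Finset.Subset.refl _), ?_⟩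
        rw [Finset.card_sdiff_of_subset hG.2, hG.1.2]
      · exact Finset.sdiff_union_of_subset hG.2
    refine le_trans (Finset.card_le_card h) (le_trans Finset.card_image_le ?_)
    rw [Finset.card_powersetCard, Finset.card_sdiff_of_subset hD]
  · have h : (Finset.powersetCard e Ω).filter (fun G => D ⊆ G) = ∅ := by
      rw [Finset.filter_eq_empty_iff]
      intro G hG hDG
      rw [Finset.mem_powersetCard] at hG
      have := Finset.card_le_card hDG
      omega
    rw [h]
    simp

theorem union_bound {α : Type*} [DecidableEq α] (Ω : Finset α) (e T l : ℕ)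
    (heN : e ≤ Ω.card) (J : Finset (Fin l → Finset α))
    (hJ : ∀ D ∈ J, ∀ i, D i ⊆ Ω ∧ (D i).card = T)
    (hlt : J.card * e ^ (T * l) < Ω.card ^ (T * l)) :
    ∃ G : Fin l → Finset α, (∀ i, G i ⊆ Ω ∧ (G i).card = e) ∧
      ∀ D ∈ J, ∃ i, ¬ D i ⊆ G i := by
  classical
  set S := Fintype.piFinset (fun _ : Fin l => Finset.powersetCard e Ω) with hS
  have hSc : S.card = (Ω.card.choose e) ^ l := by
    rw [hS, Fintype.card_piFinset]
    simp
  set Bad := J.biUnion (fun D => Fintype.piFinset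
    (fun i => (Finset.powersetCard e Ω).filter (fun G => D i ⊆ G))) with hBad
  have hbadc : Bad.card * Ω.card ^ (T * l) ≤ J.card * (Ω.card.choose e ^ l * e ^ (T * l)) := by
    calc Bad.card * Ω.card ^ (T * l)
        ≤ (∑ D ∈ J, (Fintype.piFinset
            (fun i => (Finset.powersetCard e Ω).filter (fun G => D i ⊆ G))).card)
            * Ω.card ^ (T * l) := Nat.mul_le_mul_right _ Finset.card_biUnion_le
      _ = ∑ D ∈ J, (Fintype.piFinset
            (fun i => (Finset.powersetCard e Ω).filter (fun G => D i ⊆ G))).card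
            * Ω.card ^ (T * l) := by rw [Finset.sum_mul]
      _ ≤ ∑ D ∈ J, (Ω.card.choose e ^ l * e ^ (T * l)) := by
          apply Finset.sum_le_sum
          intro D hD
          rw [Fintype.card_piFinset]
          have h1 : Ω.card ^ (T * l) = ∏ _i : Fin l, Ω.card ^ T := by
            rw [Finset.prod_const, Finset.card_univ, Fintype.card_fin, pow_mul]
          have h2 : Ω.card.choose e ^ l * e ^ (T * l)
              = ∏ _i : Fin l, (Ω.card.choose e * e ^ T) := by
            rw [Finset.prod_const, Finset.card_univ, Fintype.card_fin, mul_pow, pow_mul]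
          rw [h1, h2, ← Finset.prod_mul_distrib]
          apply Finset.prod_le_prod
          · intro i _; exact Nat.zero_le _
          · intro i _
            have h3 := count_superset Ω (D i) e heN (hJ D hD i).1
            rw [(hJ D hD i).2] at h3
            exact h3
      _ = J.card * (Ω.card.choose e ^ l * e ^ (T * l)) := by
          rw [Finset.sum_const, smul_eq_mul]
  have hpos : 0 < Ω.card.choose e ^ l := Nat.pow_pos (Nat.choose_pos heN)
  have hlt2 : Bad.card * Ω.card ^ (T * l) < S.card * Ω.card ^ (T * l) := by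
    calc Bad.card * Ω.card ^ (T * l) ≤ J.card * (Ω.card.choose e ^ l * e ^ (T * l)) := hbadc
      _ = Ω.card.choose e ^ l * (J.card * e ^ (T * l)) := by ring
      _ < Ω.card.choose e ^ l * Ω.card ^ (T * l) := Nat.mul_lt_mul_of_pos_left hlt hpos
      _ = _ := by rw [hSc]
  have hlt3 : Bad.card < S.card := lt_of_mul_lt_mul_right hlt2 (Nat.zero_le _)
  obtain ⟨G, hG1, hG2⟩ := Finset.exists_mem_notMem_of_card_lt_card hlt3
  rw [hS, Fintype.mem_piFinset] at hG1
  refine ⟨G, fun i => Finset.mem_powersetCard.1 (hG1 i), ?_⟩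
  intro D hD
  by_contra hcon
  push Not at hcon
  apply hG2
  rw [hBad, Finset.mem_biUnion]
  refine ⟨D, hD, ?_⟩
  rw [Fintype.mem_piFinset]
  intro i
  rw [Finset.mem_filter]
  exact ⟨hG1 i, hcon i⟩

theorem choose_le_three (a T : ℕ) : (a.choose T : ℝ) * T ^ T ≤ (3 * a) ^ T := by
  have h1 : (a.choose T : ℝ) ≤ a ^ T / T.factorial := Nat.choose_le_pow_div T a
  have h2 : (T : ℝ) ^ T / T.factorial ≤ Real.exp T :=
    Real.pow_div_factorial_le_exp (T : ℝ) (Nat.cast_nonneg T) T
  have h3 : Real.exp (T : ℝ) ≤ 3 ^ T := by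
    have : Real.exp (T : ℝ) = (Real.exp 1) ^ T := by
      rw [← Real.exp_nat_mul, mul_one]
    rw [this]
    gcongr
    exact Real.exp_one_lt_three.le
  have hf : (0 : ℝ) < T.factorial := by exact_mod_cast Nat.factorial_pos T
  calc (a.choose T : ℝ) * T ^ T ≤ a ^ T / T.factorial * T ^ T := by gcongr
    _ = a ^ T * (T ^ T / T.factorial) := by ring
    _ ≤ a ^ T * 3 ^ T := by gcongr; exact le_trans h2 h3
    _ = (3 * a) ^ T := by rw [mul_pow]; ring

theorem six_choose (m : ℕ) : 6 * m.choose 3 = m * (m - 1) * (m - 2) := by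
  have h := Nat.descFactorial_eq_factorial_mul_choose m 3
  have h6 : Nat.factorial 3 = 6 := rfl
  rw [h6] at h
  rw [← h]
  simp only [Nat.descFactorial_succ, Nat.descFactorial_zero]
  simp
  ring

theorem choose_ratio {m n : ℕ} (hmn : m ≤ n) : m.choose 3 * n ^ 3 ≤ n.choose 3 * m ^ 3 := by
  have h1 := six_choose m
  have h2 := six_choose n
  have h3 : 6 * (m.choose 3 * n ^ 3) ≤ 6 * (n.choose 3 * m ^ 3) := by
    have e1 : (m - 1) * n ≤ (n - 1) * m := by
      rw [Nat.sub_mul, Nat.sub_mul, mul_comm n m]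
      omega
    have e2 : (m - 2) * n ≤ (n - 2) * m := by
      rw [Nat.sub_mul, Nat.sub_mul, mul_comm n m]
      omega
    calc 6 * (m.choose 3 * n ^ 3) = (6 * m.choose 3) * n ^ 3 := by ring
      _ = (m * n) * ((m - 1) * n) * ((m - 2) * n) := by rw [h1]; ring
      _ ≤ (m * n) * ((n - 1) * m) * ((n - 2) * m) := by gcongr
      _ = (n * (n - 1) * (n - 2)) * m ^ 3 := by ring
      _ = _ := by rw [← h2]; ring
  omega

theorem six_choose_le (m : ℕ) : 6 * m.choose 3 ≤ m ^ 3 := by
  rw [six_choose]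
  have h1 : m - 1 ≤ m := Nat.sub_le _ _
  have h2 : m - 2 ≤ m := Nat.sub_le _ _
  calc m * (m - 1) * (m - 2) ≤ m * m * m := by gcongr
    _ = m ^ 3 := by ring

theorem img_img {A B C : Type*} [DecidableEq B] [DecidableEq C] (f : A → B) (g : B → C)
    (F : Finset (Finset A)) : img g (img f F) = img (g ∘ f) F := by
  unfold img
  rw [Finset.image_image]
  apply Finset.image_congr
  intro e _
  simp [Finset.image_image]

theorem img_subset_img {A B : Type*} [DecidableEq B] (f : A → B)
    {F F' : Finset (Finset A)} (h : F ⊆ F') : img f F ⊆ img f F' :=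
  Finset.image_subset_image h

theorem img_rgraph {n r : ℕ} (F : Finset (Finset (Fin n))) (σ : Equiv.Perm (Fin n))
    (h : IsRGraph r F) : IsRGraph r (img σ F) := by
  intro e he
  obtain ⟨f, hf, rfl⟩ := Finset.mem_image.1 he
  rw [Finset.card_image_of_injective _ σ.injective]
  exact h f hf

theorem lower_complete {n m T l : ℕ} (hmn : m ≤ n) (hT : 0 < T)
    (h1 : m ^ (3 * l + 3) ≤ T * n ^ (3 * l)) (h2 : n ^ (m * l) < 2 ^ T) :
    m.choose 3 ≤ U (l + 1) n 3 * T := by
  classical
  by_cases hm3 : m < 3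
  · rw [Nat.choose_eq_zero_of_lt hm3]
    exact Nat.zero_le _
  push Not at hm3
  set e := m.choose 3 with he
  have hepos : 0 < e := Nat.choose_pos hm3
  set Ω := Finset.powersetCard 3 (Finset.univ : Finset (Fin n)) with hΩ
  have hΩc : Ω.card = n.choose 3 := by rw [hΩ, Finset.card_powersetCard, Finset.card_fin]
  have heN : e ≤ Ω.card := by rw [hΩc]; exact Nat.choose_le_choose 3 hmn
  set ι : Fin m → Fin n := Fin.castLE hmn with hι
  have hιinj : Function.Injective ι := Fin.castLE_injective hmn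
  set K := Finset.powersetCard 3 (Finset.univ : Finset (Fin m)) with hK
  have hKc : K.card = e := by rw [hK, Finset.card_powersetCard, Finset.card_fin]
  set J' : Finset (Fin l → Finset (Finset (Fin n))) :=
    (Finset.powersetCard T K ×ˢ (Finset.univ : Finset (Fin l → Fin m → Fin n))).image
      (fun p i => img (p.2 i) p.1) with hJ'
  set J := J'.filter (fun D => ∀ i, D i ⊆ Ω ∧ (D i).card = T) with hJ
  have hJc : J.card ≤ e.choose T * (n ^ m) ^ l := by
    refine le_trans (Finset.card_le_card (Finset.filter_subset _ _)) ?_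
    refine le_trans Finset.card_image_le ?_
    rw [Finset.card_product, Finset.card_powersetCard, hKc, Finset.card_univ]
    simp
  have hlt : J.card * e ^ (T * l) < Ω.card ^ (T * l) := by
    rw [hΩc]
    refine lt_of_le_of_lt (Nat.mul_le_mul_right _ hJc) ?_
    have hNpos : 0 < n.choose 3 := Nat.choose_pos (le_trans hm3 hmn)
    have hn0 : 0 < n := by omega
    -- real computation
    have key : (e.choose T : ℝ) * ((n : ℝ) ^ m) ^ l * (e : ℝ) ^ (T * l)
        < (n.choose 3 : ℝ) ^ (T * l) := by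
      have hTr : (0 : ℝ) < T := by exact_mod_cast hT
      have hnr : (0 : ℝ) < n := by exact_mod_cast hn0
      have hNr : (0 : ℝ) < n.choose 3 := by exact_mod_cast hNpos
      have hmr : (0 : ℝ) < m := by
        have : 0 < m := by omega
        exact_mod_cast this
      have c1 := choose_le_three e T
      have c2 : (e : ℝ) * n ^ 3 ≤ n.choose 3 * m ^ 3 := by
        exact_mod_cast choose_ratio hmn
      have c3 : (6 : ℝ) * e ≤ m ^ 3 := by exact_mod_cast six_choose_le m
      have c4 : (m : ℝ) ^ (3 * l + 3) ≤ T * n ^ (3 * l) := by exact_mod_cast h1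
      have c5 : (n : ℝ) ^ (m * l) < 2 ^ T := by exact_mod_cast h2
      have hfac : (0 : ℝ) < 2 ^ T * T ^ T * ((n : ℝ) ^ 3) ^ (T * l) := by positivity
      rw [← mul_lt_mul_iff_left₀ hfac]
      calc (e.choose T : ℝ) * ((n : ℝ) ^ m) ^ l * (e : ℝ) ^ (T * l)
            * (2 ^ T * T ^ T * ((n : ℝ) ^ 3) ^ (T * l))
          = 2 ^ T * (e.choose T * T ^ T) * ((n : ℝ) ^ (m * l)) * (e * n ^ 3) ^ (T * l) := by
            rw [mul_pow (e : ℝ), pow_mul (n : ℝ) m l]; ring
        _ ≤ 2 ^ T * (3 * e) ^ T * ((n : ℝ) ^ (m * l)) * (n.choose 3 * m ^ 3) ^ (T * l) := by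
            gcongr
        _ = ((6 * e) * (m : ℝ) ^ (3 * l)) ^ T * (n : ℝ) ^ (m * l) * (n.choose 3) ^ (T * l) := by
            have : (m : ℝ) ^ (3 * l) = (m ^ 3) ^ l := pow_mul _ _ _
            rw [this, mul_pow (6 * (e : ℝ)), mul_pow ((n.choose 3 : ℕ) : ℝ), ← pow_mul (_ ^ 3) l T,
              mul_comm l T, show (6 : ℝ) * e = 2 * (3 * e) by ring, mul_pow 2 (3 * (e : ℝ))]
            ring
        _ ≤ (m ^ 3 * (m : ℝ) ^ (3 * l)) ^ T * (n : ℝ) ^ (m * l) * (n.choose 3) ^ (T * l) := by
            gcongr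
        _ ≤ (T * n ^ (3 * l)) ^ T * (n : ℝ) ^ (m * l) * (n.choose 3) ^ (T * l) := by
            have : (m : ℝ) ^ 3 * m ^ (3 * l) = m ^ (3 * l + 3) := by ring
            rw [this]
            gcongr
        _ < (T * n ^ (3 * l)) ^ T * 2 ^ T * (n.choose 3) ^ (T * l) := by
            gcongr
        _ = (n.choose 3 : ℝ) ^ (T * l) * (2 ^ T * T ^ T * ((n : ℝ) ^ 3) ^ (T * l)) := by
            have : (n : ℝ) ^ (3 * l) = (n ^ 3) ^ l := pow_mul _ _ _
            rw [this, mul_pow (T : ℝ), ← pow_mul (_ ^ 3) l T, mul_comm l T]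
            ring
    exact_mod_cast key
  obtain ⟨G, hG1, hG2⟩ := union_bound Ω e T l heN J
    (fun D hD => (Finset.mem_filter.1 hD).2) hlt
  have hG1' : ∀ i, IsRGraph 3 (G i) := fun i f hf =>
    (Finset.mem_powersetCard.1 ((hG1 i).1 hf)).2
  have hH0 : IsRGraph 3 (img ι K) := by
    intro f hf
    obtain ⟨g, hg, rfl⟩ := Finset.mem_image.1 hf
    rw [Finset.card_image_of_injective _ hιinj]
    exact (Finset.mem_powersetCard.1 hg).2
  refine le_U_mul (Fin.cons (img ι K) G) ?_ e T (Nat.succ_pos l) ?_ ?_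
  · intro i
    induction i using Fin.cases with
    | zero => exact hH0
    | succ i => exact hG1' i
  · intro i
    induction i using Fin.cases with
    | zero => simp only [Fin.cons_zero]; rw [img_card_inj hιinj, hKc]
    | succ i => exact (hG1 i).2
  · intro s hs
    by_contra hcon
    push Not at hcon
    obtain ⟨F0, σ, hF0, hσ⟩ := hs
    obtain ⟨F1, hF1, hF1c⟩ := Finset.exists_subset_card_eq (show T ≤ F0.card by omega)
    have h0 : img (σ 0) F1 ⊆ img ι K := by
      have := hσ 0
      simp only [Fin.cons_zero] at this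
      exact subset_trans (img_subset_img _ hF1) this
    -- pull back
    set F := K.filter (fun f => f.image ι ∈ img (σ 0) F1) with hF
    have hFimg : img ι F = img (σ 0) F1 := by
      ext f
      constructor
      · intro hf
        obtain ⟨g, hg, rfl⟩ := Finset.mem_image.1 hf
        exact (Finset.mem_filter.1 hg).2
      · intro hf
        obtain ⟨g, hg, rfl⟩ := Finset.mem_image.1 (h0 hf)
        exact Finset.mem_image.2 ⟨g, Finset.mem_filter.2 ⟨hg, hf⟩, rfl⟩
    have hFc : F.card = T := by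
      rw [← img_card_inj hιinj, hFimg, img_card_inj (σ 0).injective, hF1c]
    have hD : ∀ i : Fin l, img (fun x => σ i.succ ((σ 0).symm (ι x))) F = img (σ i.succ) F1 := by
      intro i
      have e1 : (fun x => σ i.succ ((σ 0).symm (ι x)))
          = (fun y => σ i.succ ((σ 0).symm y)) ∘ ι := rfl
      rw [e1, ← img_img, hFimg, img_img]
      congr 1
      funext x
      simp
    have hmem : (fun i : Fin l => img (σ i.succ) F1) ∈ J := by
      rw [hJ, Finset.mem_filter]
      constructor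
      · rw [hJ']
        refine Finset.mem_image.2 ⟨(F, fun i x => σ i.succ ((σ 0).symm (ι x))), ?_, ?_⟩
        · rw [Finset.mem_product]
          refine ⟨Finset.mem_powersetCard.2 ⟨Finset.filter_subset _ _, hFc⟩, Finset.mem_univ _⟩
        · funext i
          exact hD i
      · intro i
        constructor
        · have h3 : img (σ i.succ) F1 ⊆ G i := by
            have := hσ i.succ
            simp only [Fin.cons_succ] at this
            exact subset_trans (img_subset_img _ hF1) this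
          exact subset_trans h3 (hG1 i).1
        · rw [img_card_inj (σ _).injective, hF1c]
    obtain ⟨i, hi⟩ := hG2 _ hmem
    apply hi
    have := hσ i.succ
    simp only [Fin.cons_succ] at this
    exact subset_trans (img_subset_img _ hF1) this

theorem cube_le_choose {m : ℕ} (hm : 4 ≤ m) : m ^ 3 ≤ 16 * m.choose 3 := by
  have h1 := six_choose m
  obtain ⟨a, rfl⟩ : ∃ a, m = a + 4 := ⟨m - 4, by omega⟩
  have e1 : a + 4 - 1 = a + 3 := by omega
  have e2 : a + 4 - 2 = a + 2 := by omega
  rw [e1, e2] at h1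
  have h2 : 8 * ((a + 4) * (a + 3) * (a + 2)) = 3 * (a + 4) ^ 3 + (a + 4) * (5 * a ^ 2 + 16 * a) := by
    ring
  have h3 : 0 ≤ (a + 4) * (5 * a ^ 2 + 16 * a) := Nat.zero_le _
  omega

theorem log_facts {n : ℕ} (hn : 3 ≤ n) :
    1 ≤ Real.log n ∧ Real.log n ≤ (Nat.log 2 n : ℝ) + 1 ∧
      (Nat.log 2 n : ℝ) + 1 ≤ 3 * Real.log n := by
  have hn3 : (3 : ℝ) ≤ n := by exact_mod_cast hn
  have hn0 : (0 : ℝ) < n := by linarith
  have h1 : 1 ≤ Real.log n := by
    rw [Real.le_log_iff_exp_le hn0]
    exact le_trans Real.exp_one_lt_three.le hn3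
  refine ⟨h1, ?_, ?_⟩
  · have h2 : n < 2 ^ (Nat.log 2 n + 1) := Nat.lt_pow_succ_log_self (by norm_num) n
    have h3 : (n : ℝ) ≤ 2 ^ (Nat.log 2 n + 1) := by exact_mod_cast h2.le
    have h4 := Real.log_le_log hn0 h3
    rw [Real.log_pow] at h4
    push_cast at h4
    have h5 : Real.log 2 ≤ 1 := by
      have := Real.log_two_lt_d9
      linarith
    have h6 : (0 : ℝ) ≤ (Nat.log 2 n : ℝ) + 1 := by positivity
    nlinarith
  · have h2 : 2 ^ Nat.log 2 n ≤ n := Nat.pow_log_le_self 2 (by omega)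
    have h3 : (2 : ℝ) ^ Nat.log 2 n ≤ n := by exact_mod_cast h2
    have h4 := Real.log_le_log (by positivity) h3
    rw [Real.log_pow] at h4
    have h5 : 1 / 2 ≤ Real.log 2 := by
      have := Real.log_two_gt_d9
      linarith
    have h6 : (0 : ℝ) ≤ (Nat.log 2 n : ℝ) := by positivity
    nlinarith

theorem lower_bound (k : ℕ) (hk : 2 ≤ k) : ∃ c : ℝ, 0 < c ∧ ∀ᶠ n : ℕ in Filter.atTop,
    c * (n : ℝ) ^ (2 - 4 / (3 * (k : ℝ) - 1)) / (Real.log n) ^ (1 - 2 / (3 * (k : ℝ) - 1))
      ≤ (U k n 3 : ℝ) := by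
  obtain ⟨l, rfl⟩ : ∃ l, k = l + 1 := ⟨k - 1, by omega⟩
  have hl : 1 ≤ l := by omega
  have hlr : (1 : ℝ) ≤ l := by exact_mod_cast hl
  have hden : 3 * (((l + 1 : ℕ) : ℝ)) - 1 = 3 * l + 2 := by push_cast; ring
  rw [hden]
  have hd0 : (0 : ℝ) < 3 * l + 2 := by positivity
  refine ⟨1 / (192 * l), by positivity, ?_⟩
  -- y tends to infinity
  have hev : ∀ᶠ n : ℕ in Filter.atTop, (8 : ℝ) ≤ (n : ℝ) ^ (1 / (3 * (l : ℝ) + 2)) :=
    ((tendsto_rpow_atTop (by positivity)).comp tendsto_natCast_atTop_atTop).eventually_ge_atTop _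
  have hev2 : ∀ᶠ n : ℕ in Filter.atTop, Real.log n / n ^ (1 : ℝ) ≤ 1 := by
    filter_upwards [Filter.eventually_ge_atTop 1] with n hn
    have hn0 : (0 : ℝ) < n := by exact_mod_cast hn
    rw [Real.rpow_one, div_le_one hn0]
    have := Real.log_le_sub_one_of_pos hn0
    linarith
  filter_upwards [hev, hev2, Filter.eventually_ge_atTop 3] with n h8 hlogn hn3
  obtain ⟨g1, g2, g3⟩ := log_facts hn3
  have hn0 : (0 : ℝ) < n := by
    have : 0 < n := by omega
    exact_mod_cast this
  have hn1 : (1 : ℝ) ≤ n := by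
    have : 1 ≤ n := by omega
    exact_mod_cast this
  have hlogle : Real.log n ≤ n := by
    rw [Real.rpow_one, div_le_one hn0] at hlogn
    exact hlogn
  set L := Nat.log 2 n with hL
  set y : ℝ := ((n : ℝ) ^ (3 * l) * Real.log n) ^ (1 / (3 * (l : ℝ) + 2)) with hy
  have hinner : (0 : ℝ) ≤ (n : ℝ) ^ (3 * l) * Real.log n := by positivity
  have hypow : y ^ (3 * l + 2) = (n : ℝ) ^ (3 * l) * Real.log n := by
    rw [hy, ← Real.rpow_natCast, ← Real.rpow_mul hinner]
    push_cast
    rw [one_div, inv_mul_cancel₀ hd0.ne', Real.rpow_one]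
  have hy8 : 8 ≤ y := by
    refine le_trans h8 ?_
    rw [hy]
    apply Real.rpow_le_rpow hn0.le _ (by positivity)
    calc (n : ℝ) = n ^ 1 * 1 := by ring
      _ ≤ (n : ℝ) ^ (3 * l) * Real.log n := by
          have e1 : (n : ℝ) ^ 1 ≤ (n : ℝ) ^ (3 * l) := pow_le_pow_right₀ hn1 (by omega)
          gcongr
  have hy0 : 0 < y := by linarith
  set m := ⌊y⌋₊ with hm
  have hmy : (m : ℝ) ≤ y := Nat.floor_le hy0.le
  have hmy2 : y / 2 ≤ m := half_le_floor (by linarith)
  have hm4 : 4 ≤ m := by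
    have : (4 : ℝ) ≤ m := by linarith
    exact_mod_cast this
  have hmn : m ≤ n := by
    by_contra hcon
    push Not at hcon
    have hlt : (n : ℝ) < y := lt_of_lt_of_le (by exact_mod_cast hcon) hmy
    have h1 : (n : ℝ) ^ (3 * l + 2) < y ^ (3 * l + 2) :=
      pow_lt_pow_left₀ hlt hn0.le (by omega)
    rw [hypow] at h1
    have h2 : (n : ℝ) ^ (3 * l) * Real.log n ≤ (n : ℝ) ^ (3 * l) * (n * n) := by
      have : Real.log n ≤ n * n := by nlinarith
      gcongr
    have h3 : (n : ℝ) ^ (3 * l) * (n * n) = (n : ℝ) ^ (3 * l + 2) := by ring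
    linarith
  have hmain := lower_complete (n := n) (m := m) (T := m * l * (L + 1)) (l := l) hmn
    (by positivity) (by
      have h1 : (m : ℝ) ^ (3 * l + 2) ≤ (n : ℝ) ^ (3 * l) * (L + 1) := by
        calc (m : ℝ) ^ (3 * l + 2) ≤ y ^ (3 * l + 2) := by gcongr
          _ = (n : ℝ) ^ (3 * l) * Real.log n := hypow
          _ ≤ _ := by gcongr
      have h1' : m ^ (3 * l + 2) ≤ n ^ (3 * l) * (L + 1) := by exact_mod_cast h1
      calc m ^ (3 * l + 3) = m * m ^ (3 * l + 2) := by ring
        _ ≤ m * (n ^ (3 * l) * (L + 1)) := Nat.mul_le_mul_left _ h1'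
        _ ≤ l * (m * (n ^ (3 * l) * (L + 1))) := Nat.le_mul_of_pos_left _ (by omega)
        _ = m * l * (L + 1) * n ^ (3 * l) := by ring) (by
      have h1 : n < 2 ^ (L + 1) := Nat.lt_pow_succ_log_self (by norm_num) n
      have h2 : m * l ≠ 0 := by positivity
      calc n ^ (m * l) < (2 ^ (L + 1)) ^ (m * l) := Nat.pow_lt_pow_left h1 h2
        _ = 2 ^ (m * l * (L + 1)) := by rw [← pow_mul]; congr 1; ring)
  have h16 := cube_le_choose hm4
  have hfin : (m : ℝ) ^ 3 ≤ 16 * (U (l + 1) n 3 * (m * l * (L + 1))) := by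
    have : m ^ 3 ≤ 16 * (U (l + 1) n 3 * (m * l * (L + 1))) := le_trans h16 (by omega)
    exact_mod_cast this
  have hm0 : (0 : ℝ) < m := by linarith
  have hfin2 : (m : ℝ) ^ 2 ≤ 48 * l * Real.log n * U (l + 1) n 3 := by
    have h1 : (m : ℝ) * m ^ 2 ≤ m * (16 * (U (l + 1) n 3 * (l * (L + 1)))) := by
      calc (m : ℝ) * m ^ 2 = m ^ 3 := by ring
        _ ≤ _ := hfin
        _ = _ := by ring
    have h2 := le_of_mul_le_mul_left h1 hm0
    calc (m : ℝ) ^ 2 ≤ _ := h2
      _ = 16 * (U (l + 1) n 3 * l) * (L + 1) := by ring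
      _ ≤ 16 * (U (l + 1) n 3 * l) * (3 * Real.log n) := by gcongr
      _ = _ := by ring
  have hy2 : y ^ 2 ≤ 192 * l * Real.log n * U (l + 1) n 3 := by
    have : (y / 2) ^ 2 ≤ (m : ℝ) ^ 2 := by gcongr
    nlinarith
  have hy2' : y ^ 2 = (n : ℝ) ^ (2 - 4 / (3 * (l : ℝ) + 2)) *
      (Real.log n) ^ (2 / (3 * (l : ℝ) + 2)) := by
    rw [hy, ← Real.rpow_natCast, ← Real.rpow_mul hinner, Real.mul_rpow (by positivity)
      (by positivity), ← Real.rpow_natCast (n : ℝ), ← Real.rpow_mul hn0.le]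
    congr 2
    · push_cast
      field_simp
      ring
    · push_cast
      ring
  have hlog0 : (0 : ℝ) < Real.log n := by linarith
  have hsplit : (Real.log n) = (Real.log n) ^ (1 - 2 / (3 * (l : ℝ) + 2))
      * (Real.log n) ^ (2 / (3 * (l : ℝ) + 2)) := by
    rw [← Real.rpow_add hlog0]
    simp
  rw [hy2'] at hy2
  set P := (Real.log n) ^ (2 / (3 * (l : ℝ) + 2)) with hP
  set Q := (Real.log n) ^ (1 - 2 / (3 * (l : ℝ) + 2)) with hQ
  have hP0 : 0 < P := by positivity
  have hQ0 : 0 < Q := by positivity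
  rw [hsplit] at hy2
  have h5 : (n : ℝ) ^ (2 - 4 / (3 * (l : ℝ) + 2)) * P ≤ (192 * l * Q * U (l + 1) n 3) * P := by
    calc _ ≤ _ := hy2
      _ = _ := by ring
  have h6 := le_of_mul_le_mul_right h5 hP0
  rw [div_le_iff₀ hQ0, div_mul_eq_mul_div, one_mul, div_le_iff₀ (by positivity)]
  calc _ ≤ _ := h6
    _ = _ := by ring

/-- For every `k ≥ 3` the number `U_k(n,3)` equals `n ^ (2 - 4/(3k-1))` up to a power of the
logarithm smaller than one. -/
theorem result : ∀ k : ℕ, 3 ≤ k → ∃ c C : ℝ, 0 < c ∧ 0 < C ∧ ∀ᶠ n : ℕ in Filter.atTop,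
    c * (n : ℝ) ^ (2 - 4 / (3 * (k : ℝ) - 1)) / (Real.log n) ^ (1 - 2 / (3 * (k : ℝ) - 1))
        ≤ (U k n 3 : ℝ) ∧
      (U k n 3 : ℝ) ≤ C * (n : ℝ) ^ (2 - 4 / (3 * (k : ℝ) - 1)) := by
  intro k hk
  obtain ⟨c, hc, h1⟩ := lower_bound k (by omega)
  obtain ⟨C, hC, h2⟩ := upper_bound k hk
  exact ⟨c, C, hc, hC, h1.and h2⟩

end Pool.Agent.Results.MP_9dddc4_co.UkExponent
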